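import Mathlib

set_option autoImplicit false

namespace Pool.Agent.H.MP_024ca5_nt
open Finset

/-- twelve times the Dedekind sum, by the Euclidean recursion -/
noncomputable def dk : ℕ → ℕ → ℝ
  | 0, _ => 0
  | p + 1, q => -dk (q % (p + 1)) (p + 1) - 3 +
      (((p + 1 : ℕ) : ℝ) ^ 2 + (q : ℝ) ^ 2 + (Nat.gcd (p + 1) q : ℝ) ^ 2) / ((p + 1 : ℕ) * q)
  decreasing_by exact Nat.mod_lt _ (Nat.succ_pos _)

lemma dk_zero (q : ℕ) : dk 0 q = 0 := by rw [dk]

lemma dk_pos {p : ℕ} (hp : 0 < p) (q : ℕ) : dk p q = -dk (q % p) p - 3 +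
    ((p : ℝ) ^ 2 + (q : ℝ) ^ 2 + (Nat.gcd p q : ℝ) ^ 2) / (p * q) := by
  obtain ⟨p, rfl⟩ := Nat.exists_eq_succ_of_ne_zero hp.ne'
  rw [dk]

lemma dk_odd' {p m : ℕ} (hp : 0 < p) (h : p ≤ m) : dk m (p + m) = -dk p (p + m) := by
  have h1 : (0 : ℝ) < p := by exact_mod_cast hp
  rcases h.eq_or_lt with rfl | h
  · rw [dk_pos hp, Nat.add_mod_left, Nat.mod_self, dk_zero, Nat.gcd_add_self_right, Nat.gcd_self]
    push_cast; field_simp; ring
  · have h2 : (0 : ℝ) < m := by exact_mod_cast hp.trans h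
    rw [dk_pos (hp.trans h), Nat.add_mod_right, Nat.mod_eq_of_lt h, dk_pos hp m, dk_pos hp (p + m),
      Nat.add_mod_left, Nat.gcd_add_self_right, Nat.gcd_self_add_right, Nat.gcd_comm m p]
    push_cast; field_simp; ring

lemma dk_odd {p m : ℕ} (hp : 0 < p) (hm : 0 < m) : dk m (p + m) = -dk p (p + m) := by
  rcases le_total p m with h | h
  · exact dk_odd' hp h
  · rw [add_comm, dk_odd' hm h, neg_neg]

lemma dk_rec {p q : ℕ} (hp : 0 < p) (hq : 0 < q) : dk (p % q) q + dk (q % p) p =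
    -3 + ((p : ℝ) ^ 2 + (q : ℝ) ^ 2 + (Nat.gcd p q : ℝ) ^ 2) / (p * q) := by
  rcases lt_trichotomy p q with h | rfl | h
  · rw [Nat.mod_eq_of_lt h, dk_pos hp q]; ring
  · have h1 : (0 : ℝ) < p := by exact_mod_cast hp
    rw [Nat.mod_self, dk_zero, Nat.gcd_self]; field_simp; ring
  · rw [Nat.mod_eq_of_lt h, dk_pos hq p, Nat.gcd_comm q p]; ring

noncomputable def sgn (x : ℝ) : ℝ := if 0 < x then 1 else -1

noncomputable def sd (p q : ℤ) : ℝ := sgn q * dk (p % q).toNat q.natAbs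

lemma sd_neg (p q : ℤ) (hq : q ≠ 0) : sd (-p) q = -sd p q := by
  have h1 := Int.emod_nonneg p hq
  have h2 := Int.emod_lt_abs p hq
  unfold sd
  by_cases h : p % q = 0
  · rw [h, Int.emod_eq_zero_of_dvd ((dvd_neg).mpr (Int.dvd_of_emod_eq_zero h))]
    simp [dk_zero]
  · have h3 : -p % q = q.natAbs - p % q := by
      rw [Int.neg_emod, if_neg (fun e => h (Int.emod_eq_zero_of_dvd e))]
    have h4 : q.natAbs = (p % q).toNat + (-p % q).toNat := by
      rw [h3]; rw [Int.abs_eq_natAbs] at h2; omega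
    rw [h4, dk_odd (by omega) (by rw [h3]; rw [Int.abs_eq_natAbs] at h2; omega)]
    ring

lemma sd_neg' (p q : ℤ) (hq : q ≠ 0) : sd p (-q) = -sd p q := by
  unfold sd sgn
  rw [Int.emod_neg, Int.natAbs_neg]
  have : (q : ℝ) ≠ 0 := by exact_mod_cast hq
  push_cast
  split_ifs with h1 h2 h2
  · linarith
  · ring
  · ring
  · exact absurd (by linarith) this

lemma sd_per (p q a : ℤ) (hq : q ≠ 0) : sd (a * q - p) q = -sd p q := by
  rw [← sd_neg p q hq, sd, sd, show a * q - p = -p + q * a by ring, Int.add_mul_emod_self_left]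

lemma sd_rec (p q : ℤ) (hp : p ≠ 0) (hq : q ≠ 0) : sd p q + sd q p =
    -3 * sgn (p * q) + ((p : ℝ) ^ 2 + (q : ℝ) ^ 2 + (Int.gcd p q : ℝ) ^ 2) / (p * q) := by
  have key : ∀ m n : ℕ, 0 < m → 0 < n → sd m n + sd n m =
      -3 + ((m : ℝ) ^ 2 + (n : ℝ) ^ 2 + (Nat.gcd m n : ℝ) ^ 2) / (m * n) := by
    intro m n hm hn
    rw [← dk_rec hm hn]
    simp only [sd, sgn, Int.cast_natCast, Nat.cast_pos, hm, hn, if_true, one_mul, Int.natAbs_natCast,
      ← Int.natCast_mod, Int.toNat_natCast]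
  obtain ⟨m, rfl | rfl⟩ := Int.eq_nat_or_neg p <;> obtain ⟨n, rfl | rfl⟩ := Int.eq_nat_or_neg q
  all_goals
    have hm : 0 < m := by omega
    have hn : 0 < n := by omega
    have h1 : (0 : ℝ) < m := by exact_mod_cast hm
    have h2 : (0 : ℝ) < n := by exact_mod_cast hn
    have h3 := mul_pos h1 h2
    have h4 := key m n hm hn
    have hm' : (m : ℤ) ≠ 0 := by omega
    have hn' : (n : ℤ) ≠ 0 := by omega
    simp only [sd_neg _ _ hm', sd_neg _ _ hn', sd_neg' _ _ hm', sd_neg' _ _ hn', Int.gcd_neg,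
      Int.neg_gcd, Int.gcd_natCast_natCast, Int.cast_neg, Int.cast_natCast, mul_neg, neg_mul,
      neg_neg, sgn, h3, if_true, Left.neg_pos_iff, h3.not_gt, if_false, neg_sq, div_neg]
    linarith

lemma sgn_mul {x y : ℝ} (hx : x ≠ 0) (hy : y ≠ 0) : sgn (x * y) = sgn x * sgn y := by
  unfold sgn
  rcases hx.lt_or_gt with h | h <;> rcases hy.lt_or_gt with h' | h' <;>
    simp [h, h', h.not_gt, h'.not_gt, mul_pos_iff]

lemma sgn_turn {X Y X' Y' : ℝ} (h1 : X ≠ 0) (h2 : Y ≠ 0) (h3 : X' ≠ 0) (h4 : Y' ≠ 0) :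
    sgn (X * X') - sgn (Y * Y') = sgn (X * Y' - X' * Y) * (sgn (X' * Y') - sgn (X * Y)) := by
  rw [sgn_mul h1 h3, sgn_mul h2 h4, sgn_mul h3 h4, sgn_mul h1 h2]
  unfold sgn
  rcases h1.lt_or_gt with a | a <;> rcases h2.lt_or_gt with b | b <;>
    rcases h3.lt_or_gt with c | c <;> rcases h4.lt_or_gt with d | d <;>
    simp only [a, b, c, d, a.not_gt, b.not_gt, c.not_gt, d.not_gt, if_true, if_false] <;>
    split_ifs with e <;> first | ring1 | (exfalso; nlinarith)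

lemma sgn_tri {a b c : ℝ} (h1 : a ≠ b) (h2 : a ≠ c) (h3 : b ≠ c) :
    sgn ((b - a) * (c - a)) + sgn ((c - b) * (a - b)) + sgn ((a - c) * (b - c)) = 1 := by
  rw [sgn_mul (sub_ne_zero.2 h1.symm) (sub_ne_zero.2 h2.symm),
    sgn_mul (sub_ne_zero.2 h3.symm) (sub_ne_zero.2 h1), sgn_mul (sub_ne_zero.2 h2) (sub_ne_zero.2 h3)]
  unfold sgn
  rcases h1.lt_or_gt with x | x <;> rcases h2.lt_or_gt with y | y <;>
    rcases h3.lt_or_gt with z | z <;>
    simp only [sub_pos, x, y, z, x.not_gt, y.not_gt, z.not_gt, if_true, if_false] <;>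
    first | ring1 | (exfalso; linarith)

/-- the potential -/
noncomputable def pot (κ : ℝ) (p q : ℤ) (a X X' : ℝ) : ℝ :=
  q / p - sd q p - (Int.gcd p q : ℝ) ^ 2 / κ * (a / p) - 3 * (sgn (X * q - X' * p) * sgn (X * p))

lemma pot_step (κ : ℝ) (p q n : ℤ) (a a' X X' : ℝ) (hp : p ≠ 0) (hq : q ≠ 0) (hX : X ≠ 0)
    (hX' : X' ≠ 0) (hκ : κ ≠ 0) (h : p * a' - q * a = κ) :
    pot κ q (n * q - p) a' X' (n * X' - X) - pot κ p q a X X' = n - 3 * sgn (X * X') := by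
  have h1 : (p : ℝ) ≠ 0 := by exact_mod_cast hp
  have h2 : (q : ℝ) ≠ 0 := by exact_mod_cast hq
  have h3 := sgn_turn hX h1 hX' h2
  have h4 := sd_rec p q hp hq
  have h5 : Int.gcd q (n * q - p) = Int.gcd p q := by
    rw [show n * q - p = -p + n * q by ring, Int.gcd_add_mul_right_right, Int.gcd_neg, Int.gcd_comm]
  have h6 : X' * ((n * q - p : ℤ) : ℝ) - (n * X' - X) * q = X * q - X' * p := by push_cast; ring
  have h7 : (Int.gcd p q : ℝ) ^ 2 / κ * (a' / q) - (Int.gcd p q : ℝ) ^ 2 / κ * (a / p) =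
      (Int.gcd p q : ℝ) ^ 2 / (p * q) := by
    rw [← mul_sub, div_sub_div _ _ h2 h1, show a' * p - q * a = κ by linarith]; field_simp
  have h8 : ((p : ℝ) ^ 2 + (q : ℝ) ^ 2 + (Int.gcd p q : ℝ) ^ 2) / (p * q) =
      p / q + q / p + (Int.gcd p q : ℝ) ^ 2 / (p * q) := by field_simp
  have h9 : ((n * q - p : ℤ) : ℝ) / q = n - p / q := by push_cast; field_simp
  unfold pot
  rw [sd_per p q n hq, h5, h6, h9]
  linarith

lemma sum_inj {α : Type} [DecidableEq α] (X : Finset α) (τ : α → α) (h1 : ∀ s ∈ X, τ s ∈ X)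
    (h2 : Set.InjOn τ X) (F : α → ℝ) : ∑ s ∈ X, F (τ s) = ∑ s ∈ X, F s := by
  rw [← sum_image (f := F) h2]
  congr 1
  exact eq_of_subset_of_card_le (image_subset_iff.mpr h1) (card_image_of_injOn h2).ge

end Pool.Agent.H.MP_024ca5_nt
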