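import Pool.Agent.H.MP_024ca5_nt.A

set_option autoImplicit false

namespace Pool.Agent.H.MP_024ca5_nt
open Finset

abbrev V3 := Fin 3 → ℝ

def d3 (x y z : V3) : ℝ :=
  x 0 * (y 1 * z 2 - y 2 * z 1) - x 1 * (y 0 * z 2 - y 2 * z 0) + x 2 * (y 0 * z 1 - y 1 * z 0)

def dot (x y : V3) : ℝ := x 0 * y 0 + x 1 * y 1 + x 2 * y 2

def cr (x y : V3) : V3 := ![x 1 * y 2 - x 2 * y 1, x 2 * y 0 - x 0 * y 2, x 0 * y 1 - x 1 * y 0]

def pos (x : V3) : Prop := ∀ i, 0 < x i

def th (x y : V3) : ℝ := x 0 * y 1 - y 0 * x 1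

def vec (U V W : V3) (a b c : ℤ) : V3 := fun i => a * U i + b * V i + c * W i

def Good0 (U V W : V3) : Prop := pos U ∧ pos V ∧ pos W ∧ ∀ a b c : ℤ, pos (vec U V W a b c) →
  1 ≤ a + b + c ∧ (a + b + c = 1 →
    (th V U < 0 → th W U < 0 → th (vec U V W a b c) U < 0 → a ≤ 0) ∧
    (th U V < 0 → th W V < 0 → th (vec U V W a b c) V < 0 → b ≤ 0) ∧
    (th U W < 0 → th V W < 0 → th (vec U V W a b c) W < 0 → c ≤ 0))

lemma vec_swap (U V W : V3) (a b c : ℤ) : vec V U W a b c = vec U V W b a c := by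
  funext i; simp only [vec]; ring

lemma vec_rot (U V W : V3) (a b c : ℤ) : vec V W U a b c = vec U V W c a b := by
  funext i; simp only [vec]; ring

lemma Good0.swap {U V W : V3} (h : Good0 U V W) : Good0 V U W := by
  refine ⟨h.2.1, h.1, h.2.2.1, fun a b c hp => ?_⟩
  rw [vec_swap] at hp ⊢
  obtain ⟨h1, h2⟩ := h.2.2.2 b a c hp
  refine ⟨by omega, fun e => ?_⟩
  obtain ⟨h3, h4, h5⟩ := h2 (by omega)
  exact ⟨h4, h3, fun x y => h5 y x⟩

lemma Good0.rot {U V W : V3} (h : Good0 U V W) : Good0 V W U := by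
  refine ⟨h.2.1, h.2.2.1, h.1, fun a b c hp => ?_⟩
  rw [vec_rot] at hp ⊢
  obtain ⟨h1, h2⟩ := h.2.2.2 c a b hp
  refine ⟨by omega, fun e => ?_⟩
  obtain ⟨h3, h4, h5⟩ := h2 (by omega)
  exact ⟨fun x y => h4 y x, fun x y => h5 y x, h3⟩

lemma th_anti (x y : V3) : th x y = -th y x := by unfold th; ring

lemma th_trans {x y z : V3} (hx : pos x) (hy : pos y) (hz : pos z) (h1 : th x y < 0)
    (h2 : th y z < 0) : th x z < 0 := by
  have e : th x z * y 1 = th x y * z 1 + th y z * x 1 := by unfold th; ring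
  have := mul_neg_of_neg_of_pos h1 (hz 1)
  have := mul_neg_of_neg_of_pos h2 (hx 1)
  exact neg_of_mul_neg_right (by linarith : y 1 * th x z < 0) (hy 1).le

lemma vec_vec (U V W : V3) (α β γ a b c : ℤ) :
    vec U V (vec U V W α β γ) a b c = vec U V W (a + c * α) (b + c * β) (c * γ) := by
  funext i; simp only [vec]; push_cast; ring

lemma lev {U V W : V3} (hU : pos U) (hV : pos V) {a b c : ℤ} (h : a + b + c = 1) (hc : c < 0)
    (hp : pos (vec U V W a b c)) : ∃ p : ℤ × ℤ, p.1 + p.2 = 2 ∧ pos (vec U V W p.1 p.2 (-1)) ∧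
    b ≤ -c * p.2 ∧ ∀ Z, th (vec U V W a b c) Z < 0 → th U Z < 0 → th V Z ≤ 0 →
      th (vec U V W p.1 p.2 (-1)) Z < 0 := by
  have h1 := Int.emod_nonneg (-b) (by omega : -c ≠ 0)
  have h2 := Int.emod_lt_of_pos (-b) (by omega : 0 < -c)
  have h3 := Int.emod_add_mul_ediv (-b) (-c)
  set m := -b % -c
  set q := -b / -c
  have hm : (0 : ℝ) ≤ m := by exact_mod_cast h1
  have hn : (0 : ℝ) ≤ -c - 1 - m := by exact_mod_cast (by omega : 0 ≤ -c - 1 - m)
  have hk : (0 : ℝ) < -c := by exact_mod_cast (by omega : 0 < -c)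
  have e : ∀ i, -c * vec U V W (2 + q) (-q) (-1) i =
      vec U V W a b c i + m * V i + (-c - 1 - m) * U i := by
    intro i
    have e1 : (a : ℝ) = 1 - b - c := by exact_mod_cast (by omega : a = 1 - b - c)
    have e2 : (m : ℝ) = -b + c * q := by exact_mod_cast (by linarith : m = -b + c * q)
    simp only [vec, e1, e2]; push_cast; ring
  refine ⟨(2 + q, -q), by ring, fun i => ?_, by linarith, fun Z z1 z2 z3 => ?_⟩
  · have := mul_nonneg hm (hV i).le
    have := mul_nonneg hn (hU i).le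
    exact pos_of_mul_pos_left (by linarith [e i, hp i] : 0 < vec U V W (2 + q) (-q) (-1) i * -c) hk.le
  · have e2 : -c * th (vec U V W (2 + q) (-q) (-1)) Z =
        th (vec U V W a b c) Z + m * th V Z + (-c - 1 - m) * th U Z := by
      unfold th
      linear_combination Z 1 * e 0 - Z 0 * e 1
    have := mul_nonpos_of_nonneg_of_nonpos hm z3
    have := mul_nonpos_of_nonneg_of_nonpos hn z2.le
    exact neg_of_mul_neg_right (by linarith : -c * th (vec U V W (2 + q) (-q) (-1)) Z < 0) hk.le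

lemma ext0 {U V W : V3} (hU : pos U) (hV : pos V) (hUV : th U V < 0)
    (h1 : ∀ a b c, pos (vec U V W a b c) → 1 ≤ a + b + c)
    (h2 : ∃ a b c, a + b + c = 1 ∧ c < 0 ∧ pos (vec U V W a b c))
    (hfin : {p : ℤ × ℤ | p.1 + p.2 = 2 ∧ pos (vec U V W p.1 p.2 (-1))}.Finite)
    (hne : ∀ a b, th (vec U V W a b (-1)) V ≠ 0)
    (H : (∀ a b c, a + b + c = 1 → pos (vec U V W a b c) → c ≤ 0) ∨ Good0 U V W) :
    ∃ a b, a + b = 2 ∧ Good0 U V (vec U V W a b (-1)) := by
  have hVU : ¬ th V U < 0 := by rw [th_anti]; linarith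
  have hVV : th V V = 0 := by unfold th; ring
  by_cases hT : ∃ p : ℤ × ℤ, (p.1 + p.2 = 2 ∧ pos (vec U V W p.1 p.2 (-1))) ∧
      th (vec U V W p.1 p.2 (-1)) V < 0
  · obtain ⟨p, ⟨⟨p1, p2⟩, p3⟩, hp⟩ := Set.exists_max_image
      {p : ℤ × ℤ | (p.1 + p.2 = 2 ∧ pos (vec U V W p.1 p.2 (-1))) ∧
        th (vec U V W p.1 p.2 (-1)) V < 0} Prod.snd (hfin.subset fun _ h => h.1) hT
    refine ⟨p.1, p.2, p1, hU, hV, p2, fun a b c hx => ?_⟩
    rw [vec_vec] at hx ⊢
    have h3 := h1 _ _ _ hx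
    have h4 : a + c * p.1 + (b + c * p.2) + c * -1 = a + b + c := by linear_combination c * p1
    refine ⟨by omega, fun e => ⟨fun h => absurd h hVU, fun _ _ h5 => ?_, fun _ h5 => ?_⟩⟩
    · rcases lt_trichotomy c 0 with hc | hc | hc
      · rcases H with H | H
        · have := H _ _ _ (h4.trans e) hx; omega
        · have h6 := hne 0 0
          have h7 : th (vec U V W 0 0 (-1)) V = -th W V := by simp only [th, vec]; push_cast; ring
          rcases (show th W V ≠ 0 from fun e => h6 (by rw [h7, e, neg_zero])).lt_or_gt with h8 | h8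
          · have h9 := ((H.2.2.2 _ _ _ hx).2 (h4.trans e)).2.1 hUV h8 h5
            have h10 := ((H.2.2.2 _ _ _ p2).2 (by omega)).2.1 hUV h8 p3
            nlinarith
          · have h9 : th V W < 0 := by rw [th_anti]; linarith
            have := ((H.2.2.2 _ _ _ hx).2 (h4.trans e)).2.2 (th_trans hU hV H.2.2.1 hUV h9) h9
              (th_trans hx hV H.2.2.1 h5 h9)
            omega
      · subst hc
        have h6 : th (vec U V W (a + 0 * p.1) (b + 0 * p.2) (0 * -1)) V = a * th U V := by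
          simp only [th, vec]; push_cast; ring
        rw [h6] at h5
        have h7 : (0 : ℝ) < a := by nlinarith
        have h8 : 0 < a := by exact_mod_cast h7
        omega
      · obtain ⟨q, q1, q2, q3, q4⟩ := lev hU hV (h4.trans e) (by omega) hx
        have := hp q ⟨⟨q1, q2⟩, q4 V h5 hUV hVV.le⟩
        nlinarith
    · rw [th_anti] at h5; linarith
  · obtain ⟨a0, b0, c0, e0, hc0, hp0⟩ := h2
    obtain ⟨q, q1, q2, -, -⟩ := lev hU hV e0 hc0 hp0
    obtain ⟨p, ⟨p1, p2⟩, hp⟩ := Set.exists_min_image _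
      (fun p : ℤ × ℤ => vec U V W p.1 p.2 (-1) 0 / vec U V W p.1 p.2 (-1) 1) hfin ⟨q, q1, q2⟩
    refine ⟨p.1, p.2, p1, hU, hV, p2, fun a b c hx => ?_⟩
    rw [vec_vec] at hx ⊢
    have h3 := h1 _ _ _ hx
    have h4 : a + c * p.1 + (b + c * p.2) + c * -1 = a + b + c := by linear_combination c * p1
    refine ⟨by omega, fun e => ⟨fun h => absurd h hVU, fun _ h5 => absurd ⟨p, ⟨p1, p2⟩, h5⟩ hT,
      fun h5 h6 h7 => ?_⟩⟩
    by_contra hc
    obtain ⟨r, r1, r2, -, r4⟩ := lev hU hV (h4.trans e) (by omega) hx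
    have h8 := hp r ⟨r1, r2⟩
    have h9 := r4 _ h7 h5 h6.le
    rw [div_le_div_iff₀ (p2 1) (r2 1)] at h8
    unfold th at h9
    linarith

lemma uniq0 {U V W : V3} {m n : ℤ} (hUV : th U V < 0) (h1 : Good0 U V W)
    (h2 : Good0 U V (vec U V W m n 1)) (n1 : th W V ≠ 0) (n2 : th (vec U V W m n 1) V ≠ 0)
    (n3 : th W (vec U V W m n 1) = 0 → m = 0 ∧ n = 0) : m = 0 ∧ n = 0 := by
  set W' := vec U V W m n 1 with hW'
  have e : vec U V W' (-m) (-n) 1 = W := by
    rw [hW', vec_vec]; funext i; simp [vec]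
  obtain ⟨a1, a2⟩ := h1.2.2.2 m n 1 h2.2.2.1
  obtain ⟨b1, b2⟩ := h2.2.2.2 (-m) (-n) 1 (by rw [e]; exact h1.2.2.1)
  obtain ⟨-, a3, a4⟩ := a2 (by omega)
  obtain ⟨-, b3, b4⟩ := b2 (by omega)
  rw [e] at b3 b4
  rw [← hW'] at a3 a4
  have hU := h1.1
  have hV := h1.2.1
  have hW := h1.2.2.1
  have hW2 := h2.2.2.1
  have k1 : th V W < 0 → ¬ th W' W < 0 := fun h h' => by
    have := a4 (th_trans hU hV hW hUV h) h h'; omega
  have k2 : th V W' < 0 → ¬ th W W' < 0 := fun h h' => by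
    have := b4 (th_trans hU hV hW2 hUV h) h h'; omega
  have f1 := th_anti V W
  have f2 := th_anti V W'
  have f3 := th_anti W W'
  rcases n1.lt_or_gt with c1 | c1 <;> rcases n2.lt_or_gt with c2 | c2
  · have := a3 hUV c1 c2
    have := b3 hUV c2 c1
    omega
  · exact absurd (th_trans hW hV hW2 c1 (by linarith)) (k2 (by linarith))
  · exact absurd (th_trans hW2 hV hW c2 (by linarith)) (k1 (by linarith))
  · apply n3
    have := k1 (by linarith)
    have := k2 (by linarith)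
    linarith

lemma good_scale {U V W : V3} (l : V3) (hl : pos l) (h : Good0 U V W) :
    Good0 (l * U) (l * V) (l * W) := by
  have e1 : ∀ a b c, vec (l * U) (l * V) (l * W) a b c = l * vec U V W a b c := fun a b c => by
    funext i; simp only [vec, Pi.mul_apply]; ring
  have e2 : ∀ x, pos (l * x) ↔ pos x := fun x =>
    forall_congr' fun i => mul_pos_iff_of_pos_left (hl i)
  have e3 : ∀ x y, th (l * x) (l * y) < 0 ↔ th x y < 0 := fun x y => by
    have : th (l * x) (l * y) = th x y * (l 0 * l 1) := by simp only [th, Pi.mul_apply]; ring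
    have h2 := mul_pos (hl 0) (hl 1)
    rw [this]
    exact ⟨fun h => neg_of_mul_neg_right (by linarith : (l 0 * l 1) * th x y < 0) h2.le,
      fun h => mul_neg_of_neg_of_pos h h2⟩
  unfold Good0
  simp only [e1, e2, e3]
  exact h

end Pool.Agent.H.MP_024ca5_nt
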