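import Pool.Agent.H.MP_024ca5_nt.B

set_option autoImplicit false

namespace Pool.Agent.H.MP_024ca5_nt
open Finset Filter Topology

structure Lat (Λ : AddSubgroup V3) (δ : ℝ) (μ : V3) : Prop where
  hδ : δ ≠ 0
  hμ : Function.Injective μ
  int : ∀ x ∈ Λ, ∀ y ∈ Λ, ∀ z ∈ Λ, ∃ n : ℤ, d3 x y z = n * δ
  mul : ∀ x ∈ Λ, μ * x ∈ Λ
  nz : ∀ x ∈ Λ, ∀ i, x i = 0 → x = 0
  fin : ∀ R : ℝ, {x | x ∈ Λ ∧ ∀ i, |x i| ≤ R}.Finite
  cov : ∃ R : ℝ, ∀ p : V3, ∃ x ∈ Λ, ∀ i, |x i - p i| ≤ R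
  face : ∀ φ : V3, (∀ x ∈ Λ, pos x → 1 ≤ dot φ x) → ∀ p ∈ Λ, ∀ q ∈ Λ, ∀ r ∈ Λ, pos p → pos q →
    pos r → dot φ p = 1 → dot φ q = 1 → dot φ r = 1 → d3 p q r ≠ 0 →
    ∀ x ∈ Λ, ∃ n : ℤ, dot φ x = n
  bez : ∀ φ : V3, (∀ x ∈ Λ, ∃ n : ℤ, dot φ x = n) → ∀ u ∈ Λ, ∀ m ∈ Λ, m ≠ 0 → dot φ u = 1 →
    dot φ m = 0 → ∃ g : ℝ, 1 ≤ g ∧ ∃ m' ∈ Λ, ∃ e ∈ Λ, m = g • m' ∧ d3 u m' e = δ ∧ dot φ e = 0

variable {Λ : AddSubgroup V3} {δ : ℝ} {μ : V3}

lemma vec_mem {U V W : V3} (hU : U ∈ Λ) (hV : V ∈ Λ) (hW : W ∈ Λ) (a b c : ℤ) :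
    vec U V W a b c ∈ Λ := by
  have : vec U V W a b c = a • U + b • V + c • W := by
    funext i; simp [vec]
  rw [this]
  exact Λ.add_mem (Λ.add_mem (Λ.zsmul_mem hU _) (Λ.zsmul_mem hV _)) (Λ.zsmul_mem hW _)

lemma cramer (U V W x : V3) (i : Fin 3) :
    d3 U V W * x i = d3 x V W * U i + d3 U x W * V i + d3 U V x * W i := by
  fin_cases i <;> simp only [d3, Fin.zero_eta, Fin.mk_one, Fin.reduceFinMk] <;> ring

lemma d3_vec (U V W : V3) (a b c : ℤ) : d3 U V (vec U V W a b c) = c * d3 U V W := by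
  simp only [d3, vec]; ring

lemma dot_vec (φ U V W : V3) (a b c : ℤ) :
    dot φ (vec U V W a b c) = a * dot φ U + b * dot φ V + c * dot φ W := by
  simp only [dot, vec]; ring

lemma Lat.coords (L : Lat Λ δ μ) {U V W x : V3} (hU : U ∈ Λ) (hV : V ∈ Λ) (hW : W ∈ Λ)
    (hx : x ∈ Λ) (h : d3 U V W = δ) : ∃ a b c, x = vec U V W a b c := by
  obtain ⟨a, ha⟩ := L.int x hx V hV W hW
  obtain ⟨b, hb⟩ := L.int U hU x hx W hW
  obtain ⟨c, hc⟩ := L.int U hU V hV x hx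
  refine ⟨a, b, c, funext fun i => mul_left_cancel₀ L.hδ ?_⟩
  have := cramer U V W x i
  rw [h, ha, hb, hc] at this
  simp only [vec]; linarith

lemma Lat.mu_ne (L : Lat Λ δ μ) {i j : Fin 3} (h : i ≠ j) : μ i - μ j ≠ 0 :=
  sub_ne_zero.mpr (L.hμ.ne h)

lemma Lat.par (L : Lat Λ δ μ) {x y : V3} (hx : x ∈ Λ) (hy : y ∈ Λ) (h : th x y = 0) (z : V3) :
    d3 z x y = 0 := by
  by_cases h0 : x = 0
  · simp [h0, d3]
  have x0 : x 0 ≠ 0 := fun e => h0 (L.nz x hx 0 e)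
  have x1 : x 1 ≠ 0 := fun e => h0 (L.nz x hx 1 e)
  have x2 : x 2 ≠ 0 := fun e => h0 (L.nz x hx 2 e)
  have m2 : μ 2 ≠ 0 := fun e => by
    have h1 := congrFun (L.nz _ (L.mul x hx) 2 (by simp [e])) 0
    simp only [Pi.mul_apply, Pi.zero_apply, mul_eq_zero, x0, or_false] at h1
    exact L.mu_ne (i := 0) (j := 2) (by decide) (by rw [h1, e, sub_zero])
  obtain ⟨c, y0⟩ : ∃ c, y 0 = c * x 0 := ⟨y 0 / x 0, by field_simp⟩
  have y1 : y 1 = c * x 1 := by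
    apply mul_left_cancel₀ x0
    unfold th at h
    linear_combination h + x 1 * y0
  obtain ⟨a, ha⟩ := L.int x hx y hy _ (L.mul x hx)
  obtain ⟨b, hb⟩ := L.int x hx y hy _ (L.mul y hy)
  simp only [d3, Pi.mul_apply, y0, y1] at ha hb
  have h1 : (b : ℝ) = c * a := mul_right_cancel₀ L.hδ (by linear_combination c * ha - hb)
  have h2 := congrFun (L.nz _ (vec_mem (L.mul x hx) (L.mul y hy) hx b (-a) 0) 0 (by
    simp only [vec, Pi.mul_apply, y0, h1]; push_cast; ring)) 2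
  simp only [vec, Pi.mul_apply, Pi.zero_apply, h1] at h2
  push_cast at h2
  have h3 : (y 2 - c * x 2) ^ 2 * (μ 2 * (x 0 * x 1 * (μ 0 - μ 1))) = 0 := by
    linear_combination μ 2 * (y 2 - c * x 2) * ha - δ * h2
  have h4 := (mul_eq_zero.mp h3).resolve_right
    (mul_ne_zero m2 (mul_ne_zero (mul_ne_zero x0 x1) (L.mu_ne (by decide))))
  have h5 : y 2 = c * x 2 := by linarith [pow_eq_zero_iff (n := 2) (by norm_num) |>.mp h4]
  simp only [d3, y0, y1, h5]; ring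

lemma Lat.sign (L : Lat Λ δ μ) (j : Fin 3) :
    ∃ P : V3, (∀ x ∈ Λ, P * x ∈ Λ) ∧ P j < 0 ∧ ∀ k ≠ j, 0 < P k := by
  obtain ⟨q, hq⟩ := exists_nat_gt (∑ k, 2 / |μ k - μ j|)
  have lin : ∀ c : ℤ, ∀ x ∈ Λ, (fun i => q * μ i - c) * x ∈ Λ := fun c x hx => by
    convert vec_mem (L.mul x hx) hx hx q (-c) 0 using 1
    funext i; simp only [vec, Pi.mul_apply]; push_cast; ring
  have h1 := Int.floor_le (q * μ j)
  have h2 := Int.lt_floor_add_one (q * μ j)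
  set a := ⌊q * μ j⌋
  refine ⟨(fun i => q * μ i - (a - 1 : ℤ)) * (fun i => q * μ i - (a + 1 : ℤ)),
    fun x hx => by rw [mul_assoc]; exact lin _ _ (lin _ _ hx), ?_, fun k hk => ?_⟩
  · simp only [Pi.mul_apply]; push_cast
    exact mul_neg_of_pos_of_neg (by linarith) (by linarith)
  · have h3 := abs_pos.mpr (L.mu_ne hk)
    have h4 := (single_le_sum (f := fun k => 2 / |μ k - μ j|) (fun _ _ => by positivity)
      (mem_univ k)).trans_lt hq
    rw [div_lt_iff₀ h3] at h4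
    simp only [Pi.mul_apply]; push_cast
    rcases abs_cases (μ k - μ j) with h5 | h5 <;> rw [h5.1] at h4
    · exact mul_pos (by linarith) (by linarith)
    · exact mul_pos_of_neg_of_neg (by linarith) (by linarith)

lemma Lat.small (L : Lat Λ δ μ) (i : Fin 3) (ε : ℝ) (hε : 0 < ε) :
    ∃ x ∈ Λ, pos x ∧ ∀ j ≠ i, x j < ε := by
  choose P hP1 hP2 hP3 using L.sign
  obtain ⟨R, hR⟩ := L.cov
  choose xs hxs hxs' using fun n : ℕ => hR (Pi.single i (n : ℝ))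
  obtain ⟨a, -, f, hf, ht⟩ := tendsto_subseq_of_bounded (Metric.isBounded_closedBall (x := (0 : V3))
    (r := R)) (x := fun n => xs n - Pi.single i (n : ℝ)) (fun n => by
      rw [mem_closedBall_zero_iff, pi_norm_le_iff_of_nonempty]
      exact hxs' n)
  set C := 1 + ∑ j, ‖P j‖ with hC
  have hC1 : ∀ j, ‖P j‖ ≤ C - 1 := fun j => by
    rw [hC, add_sub_cancel_left]
    exact single_le_sum (f := fun j => ‖P j‖) (fun _ _ => norm_nonneg _) (mem_univ j)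
  have hC0 : 1 ≤ C := by linarith [hC1 0, norm_nonneg (P 0)]
  obtain ⟨N, hN⟩ := Metric.cauchySeq_iff'.mp ht.cauchySeq (min 1 (ε / C ^ 3)) (by positivity)
  have h1 := hN (N + 1) (by omega)
  rw [dist_eq_norm, pi_norm_lt_iff (by positivity)] at h1
  simp only [Function.comp, Pi.sub_apply, Real.norm_eq_abs, lt_min_iff] at h1
  set y := xs (f (N + 1)) - xs (f N) with hy
  have hyΛ : y ∈ Λ := Λ.sub_mem (hxs _) (hxs _)
  have hy0 : ∀ k, y k ≠ 0 := fun k e => by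
    have h2 := congrFun (L.nz y hyΛ k e) i
    have h3 := (abs_lt.mp (h1 i).1).1
    have h4 : (f N : ℝ) + 1 ≤ f (N + 1) := by exact_mod_cast hf (Nat.lt_succ_self N)
    simp only [hy, Pi.sub_apply, Pi.zero_apply, Pi.single_eq_same] at h2 h3
    linarith
  set m : Fin 3 → V3 := fun j => if y j < 0 then P j else 1 with hm
  have m1 : ∀ j, ∀ x ∈ Λ, m j * x ∈ Λ := fun j x hx => by
    simp only [hm]; split_ifs
    · exact hP1 j x hx
    · rwa [one_mul]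
  have m2 : ∀ j k, |m j k| ≤ C := fun j k => by
    simp only [hm]; split_ifs
    · linarith [norm_le_pi_norm (P j) k, hC1 j, Real.norm_eq_abs (P j k)]
    · simpa using hC0
  have m3 : ∀ j k, k ≠ j → 0 < m j k := fun j k h => by
    simp only [hm]; split_ifs
    · exact hP3 j k h
    · simp
  have m4 : ∀ j, 0 < m j j * y j := fun j => by
    simp only [hm]; split_ifs with h
    · exact mul_pos_of_neg_of_neg (hP2 j) h
    · simpa using lt_of_le_of_ne (not_lt.mp h) (hy0 j).symm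
  refine ⟨m 0 * (m 1 * (m 2 * y)), m1 _ _ (m1 _ _ (m1 _ _ hyΛ)), ?_, fun j hj => ?_⟩
  · unfold pos
    rw [Fin.forall_fin_succ, Fin.forall_fin_two]
    simp only [Pi.mul_apply, Fin.succ_zero_eq_one, Fin.succ_one_eq_two]
    refine ⟨?_, ?_, ?_⟩
    · linarith [mul_pos (m4 0) (mul_pos (m3 1 0 (by decide)) (m3 2 0 (by decide)))]
    · linarith [mul_pos (m4 1) (mul_pos (m3 0 1 (by decide)) (m3 2 1 (by decide)))]
    · linarith [mul_pos (m4 2) (mul_pos (m3 0 2 (by decide)) (m3 1 2 (by decide)))]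
  · have h2 := (h1 j).2
    simp only [Pi.single_eq_of_ne hj, sub_zero] at h2
    rw [lt_div_iff₀ (by positivity)] at h2
    refine (le_abs_self _).trans_lt (lt_of_le_of_lt ?_ h2)
    simp only [Pi.mul_apply, abs_mul]
    calc _ ≤ C * (C * (C * |y j|)) := by gcongr <;> apply m2
      _ = _ := by simp only [hy, Pi.sub_apply]; ring

lemma dot_sum (x y : V3) : dot x y = ∑ i, x i * y i := by rw [Fin.sum_univ_three, dot]

lemma Lat.phipos (L : Lat Λ δ μ) {φ : V3} (h : ∀ x ∈ Λ, pos x → 1 ≤ dot φ x) : pos φ := by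
  intro i
  by_contra h1
  have h0 : 0 ≤ ∑ j, |φ j| := sum_nonneg fun _ _ => abs_nonneg _
  obtain ⟨x, hx, h2, h3⟩ := L.small i (1 / (1 + ∑ j, |φ j|)) (by positivity)
  have h4 := h x hx h2
  have h5 : ∑ j, φ j * x j ≤ ∑ j, |φ j| * (1 / (1 + ∑ j, |φ j|)) := sum_le_sum fun j _ => by
    by_cases e : j = i
    · exact (mul_nonpos_of_nonpos_of_nonneg (e ▸ not_lt.mp h1) (h2 j).le).trans (by positivity)
    · exact mul_le_mul (le_abs_self _) (h3 j e).le (h2 j).le (abs_nonneg _)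
  rw [← sum_mul, ← dot_sum, mul_one_div, le_div_iff₀ (by positivity)] at h5
  nlinarith

lemma le_dot {φ x : V3} (h : pos φ) (hx : pos x) (i : Fin 3) : φ i * x i ≤ dot φ x := by
  rw [dot_sum]
  exact single_le_sum (f := fun i => φ i * x i) (fun j _ => (mul_pos (h j) (hx j)).le) (mem_univ i)

lemma Lat.finS (L : Lat Λ δ μ) {φ : V3} (h : pos φ) (c : ℝ) :
    {x | x ∈ Λ ∧ pos x ∧ dot φ x ≤ c}.Finite := by
  refine (L.fin (∑ j, |c| / φ j)).subset fun x hx => ⟨hx.1, fun i => ?_⟩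
  refine le_trans ?_ (single_le_sum (f := fun j => |c| / φ j)
    (fun j _ => div_nonneg (abs_nonneg _) (h j).le) (mem_univ i))
  rw [abs_of_pos (hx.2.1 i), le_div_iff₀ (h i)]
  linarith [le_dot h hx.2.1 i, hx.2.2, le_abs_self c]

lemma dot_add (φ ψ x : V3) (s : ℝ) : dot (φ + s • ψ) x = dot φ x + s * dot ψ x := by
  simp only [dot, Pi.add_apply, Pi.smul_apply, smul_eq_mul]; ring

lemma Lat.tilt (L : Lat Λ δ μ) {φ ψ u w : V3} (h : ∀ x ∈ Λ, pos x → 1 ≤ dot φ x) (hu : pos u)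
    (hu' : dot ψ u = 0) (hw : dot ψ w ≠ 0) : ∃ s : ℝ, 0 ≤ s ∧
    (∀ x ∈ Λ, pos x → 1 ≤ dot (φ + s • ψ) x) ∧
    ∃ x ∈ Λ, pos x ∧ dot ψ x < 0 ∧ dot (φ + s • ψ) x = 1 := by
  have hφ := L.phipos h
  have h1 : (univ.filter (fun i => ψ i < 0)).Nonempty := by
    by_contra h2
    simp only [not_nonempty_iff_eq_empty, filter_eq_empty_iff, mem_univ, true_imp_iff, not_lt] at h2
    rw [dot_sum, sum_eq_zero_iff_of_nonneg (fun i _ => mul_nonneg (@h2 i) (hu i).le)] at hu'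
    apply hw
    rw [dot_sum]
    exact sum_eq_zero fun i hi => by
      rw [(mul_eq_zero.mp (hu' i hi)).resolve_right (hu i).ne', zero_mul]
  obtain ⟨i, hi, hi'⟩ := exists_min_image _ (fun i => φ i / -ψ i) h1
  simp only [mem_filter, mem_univ, true_and] at hi hi'
  set s0 := φ i / -ψ i with hs0
  have hs : 0 < s0 := div_pos (hφ i) (by linarith)
  obtain ⟨x0, x1, x2, x3⟩ : ∃ x ∈ Λ, pos x ∧ dot (φ + s0 • ψ) x < 1 := by
    by_contra h2
    push Not at h2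
    have h3 := L.phipos h2 i
    have h4 : s0 * -ψ i = φ i := div_mul_cancel₀ _ (by linarith)
    simp only [Pi.add_apply, Pi.smul_apply, smul_eq_mul] at h3
    linarith
  rw [dot_add] at x3
  have x4 := h x0 x1 x2
  have x5 : dot ψ x0 < 0 := by nlinarith
  set g : V3 → ℝ := fun x => (dot φ x - 1) / -dot ψ x with hg
  have g1 : ∀ x, dot ψ x < 0 → ∀ s, s ≤ g x ↔ 1 ≤ dot (φ + s • ψ) x := fun x hx s => by
    rw [hg, dot_add, le_div_iff₀ (by linarith)]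
    constructor <;> intro <;> linarith
  have g2 : ∀ x, dot ψ x < 0 → dot (φ + g x • ψ) x = 1 := fun x hx => by
    have : g x * -dot ψ x = dot φ x - 1 := div_mul_cancel₀ _ (by linarith)
    rw [dot_add]; linarith
  have g3 : g x0 < s0 := by
    by_contra h2
    have := (g1 x0 x5 s0).mp (not_lt.mp h2)
    rw [dot_add] at this
    linarith
  have g4 : ∀ x ∈ Λ, pos x → dot ψ x < 0 → 0 ≤ g x := fun x a b c =>
    div_nonneg (by linarith [h x a b]) (by linarith)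
  have h2 : pos (φ + g x0 • ψ) := fun j => by
    simp only [Pi.add_apply, Pi.smul_apply, smul_eq_mul]
    by_cases e : ψ j < 0
    · have := hi' j e
      rw [le_div_iff₀ (by linarith)] at this
      nlinarith
    · nlinarith [hφ j, g4 x0 x1 x2 x5]
  obtain ⟨x, ⟨⟨y1, y2, y3⟩, y4⟩, hx⟩ := Set.exists_min_image
    {x | (x ∈ Λ ∧ pos x ∧ dot (φ + g x0 • ψ) x ≤ 1) ∧ dot ψ x < 0} g
    ((L.finS h2 1).subset fun _ h => h.1) ⟨x0, ⟨x1, x2, (g2 x0 x5).le⟩, x5⟩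
  refine ⟨g x, g4 x y1 y2 y4, fun z z1 z2 => ?_, x, y1, y2, y4, g2 x y4⟩
  by_cases e : dot ψ z < 0
  · rw [← g1 z e]
    by_cases e2 : dot (φ + g x0 • ψ) z ≤ 1
    · exact hx z ⟨⟨z1, z2, e2⟩, e⟩
    · exact (hx x0 ⟨⟨x1, x2, (g2 x0 x5).le⟩, x5⟩).trans ((g1 z e _).mpr (not_le.mp e2).le)
  · rw [dot_add]
    nlinarith [h z z1 z2, g4 x y1 y2 y4]

lemma Lat.th_ne (L : Lat Λ δ μ) {x y z : V3} (hx : x ∈ Λ) (hy : y ∈ Λ) (h : d3 z x y ≠ 0) :
    th x y ≠ 0 := fun e => h (L.par hx hy e z)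

lemma d3_swap (x y z : V3) : d3 y x z = -d3 x y z := by unfold d3; ring

lemma d3_rot (x y z : V3) : d3 y z x = d3 x y z := by unfold d3; ring

lemma Lat.ext (L : Lat Λ δ μ) {U V W φ : V3} (hU : U ∈ Λ) (hV : V ∈ Λ) (hW : W ∈ Λ)
    (hd : d3 U V W = δ) (pU : pos U) (pV : pos V) (f1 : dot φ U = 1) (f2 : dot φ V = 1)
    (f3 : dot φ W = 1) (h : ∀ x ∈ Λ, pos x → 1 ≤ dot φ x)
    (h2 : ∃ x ∈ Λ, pos x ∧ dot φ x = 1 ∧ d3 U V x / δ < 0)
    (H : (∀ a b c, a + b + c = 1 → pos (vec U V W a b c) → c ≤ 0) ∨ Good0 U V W) :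
    ∃ a b, a + b = 2 ∧ Good0 U V (vec U V W a b (-1)) := by
  have hδ := L.hδ
  have e : ∀ a b c, dot φ (vec U V W a b c) = (a + b + c : ℤ) := fun a b c => by
    rw [dot_vec, f1, f2, f3]; push_cast; ring
  have h1 : ∀ a b c, pos (vec U V W a b c) → 1 ≤ a + b + c := fun a b c hp => by
    have := h _ (vec_mem hU hV hW a b c) hp
    rw [e] at this
    exact_mod_cast this
  have h3 : ∃ a b c, a + b + c = 1 ∧ c < 0 ∧ pos (vec U V W a b c) := by
    obtain ⟨x, x1, x2, x3, x4⟩ := h2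
    obtain ⟨a, b, c, rfl⟩ := L.coords hU hV hW x1 hd
    rw [d3_vec, hd, mul_div_cancel_right₀ _ hδ] at x4
    rw [e] at x3
    exact ⟨a, b, c, by exact_mod_cast x3, by exact_mod_cast x4, x2⟩
  have hfin : {p : ℤ × ℤ | p.1 + p.2 = 2 ∧ pos (vec U V W p.1 p.2 (-1))}.Finite := by
    refine Set.Finite.of_finite_image (f := fun p => vec U V W p.1 p.2 (-1))
      ((L.finS (L.phipos h) 1).subset ?_) ?_
    · rintro _ ⟨p, hp, rfl⟩
      refine ⟨vec_mem hU hV hW _ _ _, hp.2, ?_⟩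
      rw [e, hp.1]; norm_num
    · intro p hp q hq h4
      have h5 := congrArg (fun x => d3 V W x) h4
      simp only [← vec_rot U V W, d3_vec, d3_rot U V W, hd] at h5
      have h6 : p.1 = q.1 := by exact_mod_cast mul_right_cancel₀ hδ h5
      exact Prod.ext h6 (by linarith [hp.1, hq.1])
  have hne : ∀ a b, th (vec U V W a b (-1)) V ≠ 0 ∧ th (vec U V W a b (-1)) U ≠ 0 := fun a b => by
    have h4 : d3 U V (vec U V W a b (-1)) ≠ 0 := by rw [d3_vec, hd]; simpa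
    refine ⟨L.th_ne (z := U) (vec_mem hU hV hW _ _ _) hV ?_,
      L.th_ne (z := V) (vec_mem hU hV hW _ _ _) hU ?_⟩
    · rwa [← d3_rot, d3_swap, d3_rot, neg_ne_zero]
    · rwa [d3_rot]
  rcases (L.th_ne (z := W) hU hV (by rwa [← d3_rot, hd])).lt_or_gt with h4 | h4
  · exact ext0 pU pV h4 h1 h3 hfin (fun a b => (hne a b).1) H
  · obtain ⟨a, b, h5, h6⟩ := ext0 (W := W) pV pU (by rw [th_anti]; linarith)
      (fun a b c hp => by rw [vec_swap] at hp; linarith [h1 _ _ _ hp])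
      (by obtain ⟨a, b, c, x1, x2, x3⟩ := h3; exact ⟨b, a, c, by omega, x2, by rwa [vec_swap]⟩)
      ((hfin.preimage Prod.swap_injective.injOn).subset fun p hp =>
        ⟨by simp only [Prod.fst_swap, Prod.snd_swap]; linarith [hp.1], by
          have := hp.2; rwa [vec_swap] at this⟩)
      (fun a b => by rw [vec_swap]; exact (hne b a).2)
      (H.imp (fun H a b c x1 x2 => H b a c (by omega) (by rwa [vec_swap] at x2)) Good0.swap)
    rw [vec_swap] at h6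
    exact ⟨b, a, by omega, h6.swap⟩

end Pool.Agent.H.MP_024ca5_nt
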