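import Pool.Agent.H.MP_024ca5_nt.C

set_option autoImplicit false

namespace Pool.Agent.H.MP_024ca5_nt
open Finset

variable {Λ : AddSubgroup V3} {δ : ℝ} {μ : V3}

lemma dot_cr (x y z : V3) : dot (cr x y) z = d3 x y z := by
  simp [dot, cr, d3]; ring

lemma Lat.phi (L : Lat Λ δ μ) {U V W : V3} (hU : U ∈ Λ) (hV : V ∈ Λ) (hW : W ∈ Λ)
    (hd : d3 U V W = δ) (h : Good0 U V W) : ∃ φ : V3, dot φ U = 1 ∧ dot φ V = 1 ∧ dot φ W = 1 ∧
      (∀ x ∈ Λ, pos x → 1 ≤ dot φ x) ∧ ∀ x ∈ Λ, ∃ n : ℤ, dot φ x = n := by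
  have hδ := L.hδ
  set φ : V3 := δ⁻¹ • (cr V W + cr W U + cr U V) with hφ
  have e : ∀ x, dot φ x = δ⁻¹ * (d3 V W x + d3 W U x + d3 U V x) := fun x => by
    simp only [← dot_cr, hφ, dot, Pi.smul_apply, Pi.add_apply, smul_eq_mul]; ring
  have f1 : dot φ U = 1 := by rw [e, inv_mul_eq_div, div_eq_one_iff_eq hδ, ← hd]; unfold d3; ring
  have f2 : dot φ V = 1 := by rw [e, inv_mul_eq_div, div_eq_one_iff_eq hδ, ← hd]; unfold d3; ring
  have f3 : dot φ W = 1 := by rw [e, inv_mul_eq_div, div_eq_one_iff_eq hδ, ← hd]; unfold d3; ring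
  have e2 : ∀ a b c, dot φ (vec U V W a b c) = (a + b + c : ℤ) := fun a b c => by
    rw [dot_vec, f1, f2, f3]; push_cast; ring
  refine ⟨φ, f1, f2, f3, fun x hx hp => ?_, fun x hx => ?_⟩
  · obtain ⟨a, b, c, rfl⟩ := L.coords hU hV hW hx hd
    rw [e2]
    exact_mod_cast (h.2.2.2 a b c hp).1
  · obtain ⟨a, b, c, rfl⟩ := L.coords hU hV hW hx hd
    exact ⟨_, e2 a b c⟩

lemma Lat.flip (L : Lat Λ δ μ) {U V W : V3} (hU : U ∈ Λ) (hV : V ∈ Λ) (hW : W ∈ Λ)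
    (hd : d3 U V W = δ) (h : Good0 U V W) : ∃ a b, Good0 U V (vec U V W a b (-1)) := by
  have hδ := L.hδ
  obtain ⟨φ, f1, f2, f3, f4, -⟩ := L.phi hU hV hW hd h
  have e : ∀ x, dot (δ⁻¹ • cr U V) x = d3 U V x / δ := fun x => by
    simp only [← dot_cr, dot, Pi.smul_apply, smul_eq_mul]; ring
  have e1 : dot (δ⁻¹ • cr U V) U = 0 := by rw [e]; unfold d3; ring
  have e2 : dot (δ⁻¹ • cr U V) V = 0 := by rw [e]; unfold d3; ring
  have e3 : dot (δ⁻¹ • cr U V) W = 1 := by rw [e, hd, div_self hδ]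
  obtain ⟨s, hs, g1, x, x1, x2, x3, x4⟩ := L.tilt (w := W) f4 h.1 e1 (by rw [e3]; norm_num)
  have g2 : dot (φ + s • δ⁻¹ • cr U V) U = 1 := by rw [dot_add, f1, e1]; ring
  have g3 : dot (φ + s • δ⁻¹ • cr U V) V = 1 := by rw [dot_add, f2, e2]; ring
  rw [e] at x3
  obtain ⟨n, hn⟩ := L.face _ g1 U hU V hV x x1 h.1 h.2.1 x2 g2 g3 x4
    (fun h => by rw [h] at x3; simp at x3) W hW
  have g4 := hn
  rw [dot_add, f3, e3] at g4
  have g5 : 1 ≤ n := by exact_mod_cast (by linarith : (1 : ℝ) ≤ n)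
  obtain ⟨a, b, -, h2⟩ := L.ext hU hV (vec_mem hU hV hW (1 - n) 0 1) (by rw [d3_vec, hd]; simp)
    h.1 h.2.1 g2 g3 (by rw [dot_vec, g2, hn]; push_cast; ring) g1 ⟨x, x1, x2, x4, x3⟩ (by
      rcases g5.eq_or_lt with g6 | g6
      · right
        convert h
        funext i; simp [vec, ← g6]
      · left
        intro a b c h2 h3
        rw [vec_vec] at h3
        have := (h.2.2.2 _ _ _ h3).1
        nlinarith)
  rw [vec_vec] at h2
  exact ⟨_, _, h2⟩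

lemma Lat.uniq (L : Lat Λ δ μ) {U V W : V3} (hU : U ∈ Λ) (hV : V ∈ Λ) (hW : W ∈ Λ)
    (hd : d3 U V W = δ) {m n : ℤ} (h1 : Good0 U V W) (h2 : Good0 U V (vec U V W m n 1)) :
    m = 0 ∧ n = 0 := by
  have hδ := L.hδ
  have hW' := vec_mem hU hV hW m n 1
  have hd' : d3 U V (vec U V W m n 1) = δ := by rw [d3_vec, hd]; simp
  have n3 : th W (vec U V W m n 1) = 0 → m = 0 ∧ n = 0 := fun e => by
    have h3 := L.par hW hW' e V
    have h4 := L.par hW hW' e U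
    have h5 : (m : ℝ) * δ = 0 := by rw [← h3, ← hd]; simp only [d3, vec]; push_cast; ring
    have h6 : (n : ℝ) * δ = 0 := by
      rw [← neg_eq_zero, ← h4, ← hd]; simp only [d3, vec]; push_cast; ring
    exact ⟨by simpa [hδ] using h5, by simpa [hδ] using h6⟩
  have k1 : ∀ x ∈ Λ, d3 U V x = δ → th x V ≠ 0 ∧ th x U ≠ 0 := fun x hx e =>
    ⟨L.th_ne (z := U) hx hV (by rwa [← d3_rot, d3_swap, d3_rot, neg_ne_zero, e]),
      L.th_ne (z := V) hx hU (by rwa [d3_rot, e])⟩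
  rcases (L.th_ne (z := W) hU hV (by rwa [← d3_rot, hd])).lt_or_gt with h4 | h4
  · exact uniq0 h4 h1 h2 (k1 W hW hd).1 (k1 _ hW' hd').1 n3
  · rw [← vec_swap] at h2 hW' hd' n3
    exact (uniq0 (by rw [th_anti]; linarith) h1.swap h2.swap (k1 W hW hd).2 (k1 _ hW' hd').2
      (fun e => (n3 e).symm)).symm

lemma Lat.start (L : Lat Λ δ μ) : ∃ U ∈ Λ, ∃ V ∈ Λ, ∃ W ∈ Λ, d3 U V W = δ ∧ Good0 U V W ∧
    ∀ a b, a + b = 2 → ¬ pos (vec W U V a b (-1)) := by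
  have hδ := L.hδ
  obtain ⟨x0, x1, x2, -⟩ := L.small 0 1 one_pos
  have one : pos (1 : V3) := fun _ => one_pos
  obtain ⟨p, ⟨p1, p2, p3⟩, hp⟩ := Set.exists_min_image _ (dot 1) (L.finS one (dot 1 x0))
    ⟨x0, x1, x2, le_rfl⟩
  have p4 : 0 < dot 1 p := (mul_pos one_pos (p2 0)).trans_le (le_dot one p2 0)
  have e0 : ∀ x, dot ((dot 1 p)⁻¹ • 1) x = dot 1 x / dot 1 p := fun x => by
    simp only [dot, Pi.smul_apply, smul_eq_mul]; ring
  obtain ⟨s, -, g1, q, q1, q2, q3, q4⟩ := L.tilt (φ := (dot 1 p)⁻¹ • 1) (ψ := cr p ![1, 0, 0])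
    (w := ![0, 1, 0]) (fun x a b => by
      rw [e0, one_le_div p4]
      by_cases h : dot 1 x ≤ dot 1 x0
      · exact hp x ⟨a, b, h⟩
      · linarith) p2 (by rw [dot_cr]; unfold d3; ring) (by simpa [dot_cr, d3] using (p2 2).ne')
  have g2 : dot ((dot 1 p)⁻¹ • 1 + s • cr p ![1, 0, 0]) p = 1 := by
    rw [dot_add, e0, dot_cr, div_self p4.ne']; unfold d3; ring
  generalize (dot 1 p)⁻¹ • 1 + s • cr p ![1, 0, 0] = φ1 at g1 g2 q4
  obtain ⟨t, -, g3, r, r1, r2, r3, r4⟩ := L.tilt (ψ := cr p q) (w := ![1, 0, 0]) g1 p2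
    (by rw [dot_cr]; unfold d3; ring) (by
      rw [dot_cr] at q3 ⊢
      rw [← d3_rot, d3_swap, d3_rot]; linarith)
  have g4 : dot (φ1 + t • cr p q) p = 1 := by rw [dot_add, g2, dot_cr]; unfold d3; ring
  have g5 : dot (φ1 + t • cr p q) q = 1 := by rw [dot_add, q4, dot_cr]; unfold d3; ring
  generalize φ1 + t • cr p q = φ at g3 g4 g5 r4
  rw [dot_cr] at r3
  have hint := L.face φ g3 p p1 q q1 r r1 p2 q2 r2 g4 g5 r4 r3.ne
  have hS : {x | x ∈ Λ ∧ pos x ∧ dot φ x = 1}.Finite :=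
    (L.finS (L.phipos g3) 1).subset fun x h => ⟨h.1, h.2.1, h.2.2.le⟩
  obtain ⟨u, ⟨u1, u2, u3⟩, hu⟩ := Set.exists_min_image _ (fun x : V3 => x 0 / x 1) hS ⟨p, p1, p2, g4⟩
  have hu' : ∀ x ∈ Λ, pos x → dot φ x = 1 → x ≠ u → 0 < -th u x := fun x a b c d => by
    have h1 := hu x ⟨a, b, c⟩
    rw [div_le_div_iff₀ (u2 1) (b 1)] at h1
    refine lt_of_le_of_ne (by unfold th; linarith) fun e => d ?_
    have h2 := L.par u1 a (by linarith)
    have h3 := h2 ![1, 0, 0]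
    have h4 := h2 ![0, 1, 0]
    have h5 := h2 ![0, 0, 1]
    simp [d3] at h3 h4 h5
    unfold dot at u3 c
    funext i
    fin_cases i <;> simp only [Fin.zero_eta, Fin.mk_one, Fin.reduceFinMk]
    · linear_combination u 0 * c - x 0 * u3 - φ 1 * h5 + φ 2 * h4
    · linear_combination u 1 * c - x 1 * u3 + φ 0 * h5 - φ 2 * h3
    · linear_combination u 2 * c - x 2 * u3 - φ 0 * h4 + φ 1 * h3
  obtain ⟨v, ⟨⟨v1, v2, v3⟩, v4⟩, hv⟩ := Set.exists_min_image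
    {x | (x ∈ Λ ∧ pos x ∧ dot φ x = 1) ∧ x ≠ u} (fun x => δ * (u 1 * x 2 - x 1 * u 2) / -th u x)
    (hS.subset fun _ h => h.1) (by
      by_cases h : p = u
      · refine ⟨q, ⟨q1, q2, g5⟩, fun e => r3.ne ?_⟩
        rw [h, e]; unfold d3; ring
      · exact ⟨p, ⟨p1, p2, g4⟩, h⟩)
  have hv' : ∀ x ∈ Λ, pos x → dot φ x = 1 → δ * d3 u v x ≤ 0 := fun x a b c => by
    by_cases d : x = u
    · rw [d]; unfold d3; linarith
    · have h1 := hv x ⟨⟨a, b, c⟩, d⟩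
      rw [div_le_div_iff₀ (hu' v v1 v2 v3 v4) (hu' x a b c d)] at h1
      refine nonpos_of_mul_nonpos_right (le_of_eq_of_le ?_ (sub_nonpos.mpr h1)) (u2 1)
      unfold d3 th; ring
  have sub : ∀ x y, dot φ (x - y) = dot φ x - dot φ y := fun x y => by
    simp only [dot, Pi.sub_apply]; ring
  have add : ∀ x y, dot φ (x + y) = dot φ x + dot φ y := fun x y => by
    simp only [dot, Pi.add_apply]; ring
  obtain ⟨g, hg, m, m1, e, e1, m2, m3, e2⟩ := L.bez φ hint u u1 (v - u) (Λ.sub_mem v1 u1)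
    (sub_ne_zero.mpr v4) u3 (by rw [sub, v3, u3, sub_self])
  have m4 : ∀ i, v i = u i + g * m i := fun i => by
    have := congrFun m2 i
    simp only [Pi.sub_apply, Pi.smul_apply, smul_eq_mul] at this
    linarith
  have m5 : dot φ (u + m) = 1 := by
    have : g * dot φ m = 0 := by
      simp only [dot, m4] at v3 u3 ⊢
      linarith
    rw [add, u3, (mul_eq_zero.mp this).resolve_left (by linarith), add_zero]
  have m6 : ∀ x, d3 u v x = g * d3 u (u + m) x := fun x => by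
    simp only [d3, m4, Pi.add_apply]; ring
  have hd : d3 u (u + m) (u + e) = δ := by rw [← m3]; simp only [d3, Pi.add_apply]; ring
  have f3 : dot φ (u + e) = 1 := by rw [add, u3, e2, add_zero]
  have hv2 : ∀ x ∈ Λ, pos x → dot φ x = 1 → d3 u (u + m) x / δ ≤ 0 := fun x a b c => by
    have h1 := hv' x a b c
    rw [m6] at h1
    have h2 : d3 u (u + m) x / δ = δ * (g * d3 u (u + m) x) / (g * δ ^ 2) := by field_simp
    rw [h2]
    exact div_nonpos_of_nonpos_of_nonneg h1 (by positivity)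
  have H : ∀ a b c, a + b + c = 1 → pos (vec u (u + m) (u + e) a b c) → c ≤ 0 := fun a b c h1 h2 => by
    have := hv2 _ (vec_mem u1 (Λ.add_mem u1 m1) (Λ.add_mem u1 e1) a b c) h2 (by
      rw [dot_vec, u3, m5, f3]; exact_mod_cast (by omega))
    rw [d3_vec, hd, mul_div_cancel_right₀ _ hδ] at this
    exact_mod_cast this
  obtain ⟨a, b, h1, h2⟩ := L.ext u1 (Λ.add_mem u1 m1) (Λ.add_mem u1 e1) hd u2 (fun i => by
      have h1 := v2 i
      have h2 := u2 i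
      rw [m4] at h1
      simp only [Pi.add_apply]
      nlinarith) u3 m5 f3 g3 (by
      by_contra h1
      push Not at h1
      have h2 : ∀ x ∈ Λ, pos x → dot φ x = 1 → d3 u (u + m) x = 0 := fun x a b c => by
        simpa [hδ] using le_antisymm (hv2 x a b c) (h1 x a b c)
      have h3 : d3 p q r * d3 u (u + m) (u + e) = d3 (u + e) q r * d3 u (u + m) p +
          d3 p (u + e) r * d3 u (u + m) q + d3 p q (u + e) * d3 u (u + m) r := by unfold d3; ring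
      rw [h2 p p1 p2 g4, h2 q q1 q2 g5, h2 r r1 r2 r4, hd] at h3
      exact mul_ne_zero r3.ne hδ (by linarith)) (Or.inl H)
  refine ⟨u, u1, _, vec_mem u1 (Λ.add_mem u1 m1) (Λ.add_mem u1 e1) a b (-1), u + m,
    Λ.add_mem u1 m1, ?_, h2.rot.rot.swap, fun a' b' h3 h4 => ?_⟩
  · rw [← d3_rot, d3_swap, d3_rot, d3_vec, hd]; simp
  · rw [vec_swap, vec_vec] at h4
    have := H _ _ _ (by omega) h4
    omega

lemma d3_le {x y z : V3} {m : ℝ} (hx : ∀ i, |x i| ≤ m) (hy : ∀ i, |y i| ≤ m) (hz : ∀ i, |z i| ≤ m) :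
    |d3 x y z| ≤ 6 * m ^ 3 := by
  have hm := (abs_nonneg _).trans (hx 0)
  have h : ∀ i j k, |x i * y j * z k| ≤ m ^ 3 := fun i j k => by
    rw [abs_mul, abs_mul, pow_succ, sq]
    exact mul_le_mul (mul_le_mul (hx i) (hy j) (abs_nonneg _) hm) (hz k) (abs_nonneg _)
      (mul_nonneg hm hm)
  have h1 := abs_le.mp (h 0 1 2)
  have h2 := abs_le.mp (h 0 2 1)
  have h3 := abs_le.mp (h 1 0 2)
  have h4 := abs_le.mp (h 1 2 0)
  have h5 := abs_le.mp (h 2 0 1)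
  have h6 := abs_le.mp (h 2 1 0)
  unfold d3
  rw [abs_le]
  constructor <;> linarith

lemma Lat.vd (L : Lat Λ δ μ) : d3 1 μ (μ * μ) ≠ 0 := by
  have : d3 1 μ (μ * μ) = (μ 1 - μ 0) * (μ 2 - μ 0) * (μ 2 - μ 1) := by simp [d3]; ring
  rw [this]
  exact mul_ne_zero (mul_ne_zero (L.mu_ne (by decide)) (L.mu_ne (by decide))) (L.mu_ne (by decide))

lemma Lat.bnd (L : Lat Λ δ μ) : ∃ C : ℕ, ∀ U ∈ Λ, ∀ V ∈ Λ, ∀ W ∈ Λ, d3 U V W = δ → Good0 U V W →
    ∀ x ∈ [U, μ * U, μ * (μ * U), V, W], ∀ y ∈ [U, μ * U, μ * (μ * U), V, W],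
    ∀ z ∈ [U, μ * U, μ * (μ * U), V, W], ∃ n : ℤ, d3 x y z = n * δ ∧ |n| < C := by
  set m := 1 + dot μ μ with hm
  obtain ⟨C, hC⟩ := exists_nat_gt (6 * m ^ 3 * |d3 1 μ (μ * μ)|)
  refine ⟨C, fun U hU V hV W hW hd h x hx y hy z hz => ?_⟩
  obtain ⟨φ, f1, f2, f3, f4, f5⟩ := L.phi hU hV hW hd h
  have hφ := L.phipos f4
  have m1 : ∀ i, μ i * μ i + 1 ≤ m := fun i => by
    have := single_le_sum (f := fun i => μ i * μ i) (fun j _ => mul_self_nonneg _) (mem_univ i)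
    rw [hm, dot_sum]; linarith
  have k : ∀ x, pos x → dot φ x = 1 → ∀ i c, |c| ≤ m → |φ i * (c * x i)| ≤ m := fun x a b i c d => by
    have h1 := le_dot hφ a i
    have h2 := mul_pos (hφ i) (a i)
    rw [mul_left_comm, abs_mul, abs_of_pos h2]
    nlinarith [abs_nonneg c]
  have k1 : ∀ x ∈ [U, μ * U, μ * (μ * U), V, W], x ∈ Λ ∧ ∀ i, |(φ * x) i| ≤ m := by
    have h1 : ∀ i : Fin 3, |(1 : ℝ)| ≤ m := fun i => by
      rw [abs_one]; nlinarith [m1 i, mul_self_nonneg (μ i)]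
    simp only [List.mem_cons, List.not_mem_nil, or_false, forall_eq_or_imp, forall_eq, Pi.mul_apply]
    refine ⟨⟨hU, fun i => by simpa using k U h.1 f1 i 1 (h1 i)⟩,
      ⟨L.mul _ hU, fun i => k U h.1 f1 i _ (abs_le.mpr ⟨by nlinarith [m1 i], by nlinarith [m1 i]⟩)⟩,
      ⟨L.mul _ (L.mul _ hU), fun i => ?_⟩, ⟨hV, fun i => by simpa using k V h.2.1 f2 i 1 (h1 i)⟩,
      ⟨hW, fun i => by simpa using k W h.2.2.1 f3 i 1 (h1 i)⟩⟩
    rw [← mul_assoc (μ i)]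
    exact k U h.1 f1 i _ (by rw [abs_mul_self]; linarith [m1 i])
  obtain ⟨n, hn⟩ := L.int x (k1 x hx).1 y (k1 y hy).1 z (k1 z hz).1
  refine ⟨n, hn, ?_⟩
  have h1 := d3_le (k1 x hx).2 (k1 y hy).2 (k1 z hz).2
  have h2 : d3 (φ * x) (φ * y) (φ * z) = n * (φ 0 * φ 1 * φ 2 * δ) := by
    simp only [d3, Pi.mul_apply] at hn ⊢
    linear_combination φ 0 * φ 1 * φ 2 * hn
  obtain ⟨a1, ha1⟩ := f5 _ (L.mul _ hU)
  obtain ⟨a2, ha2⟩ := f5 _ (L.mul _ hV)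
  obtain ⟨a3, ha3⟩ := f5 _ (L.mul _ hW)
  obtain ⟨b1, hb1⟩ := f5 _ (L.mul _ (L.mul _ hU))
  obtain ⟨b2, hb2⟩ := f5 _ (L.mul _ (L.mul _ hV))
  obtain ⟨b3, hb3⟩ := f5 _ (L.mul _ (L.mul _ hW))
  have h3 : ((a2 * b3 - a3 * b2 - (a1 * b3 - a3 * b1) + (a1 * b2 - a2 * b1) : ℤ) : ℝ) =
      φ 0 * φ 1 * φ 2 * δ * d3 1 μ (μ * μ) := by
    have : d3 ![dot φ U, dot φ V, dot φ W] ![dot φ (μ * U), dot φ (μ * V), dot φ (μ * W)]
        ![dot φ (μ * (μ * U)), dot φ (μ * (μ * V)), dot φ (μ * (μ * W))] =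
        φ 0 * φ 1 * φ 2 * d3 U V W * d3 1 μ (μ * μ) := by simp [d3, dot]; ring
    rw [← hd, ← this, f1, f2, f3, ha1, ha2, ha3, hb1, hb2, hb3]
    simp [d3]
  have h4 : (1 : ℝ) ≤ |φ 0 * φ 1 * φ 2 * δ| * |d3 1 μ (μ * μ)| := by
    rw [← abs_mul, ← h3, ← Int.cast_abs]
    have : a2 * b3 - a3 * b2 - (a1 * b3 - a3 * b1) + (a1 * b2 - a2 * b1) ≠ 0 := fun e => by
      rw [e, Int.cast_zero] at h3
      exact mul_ne_zero (mul_ne_zero (mul_pos (mul_pos (hφ 0) (hφ 1)) (hφ 2)).ne' L.hδ) L.vd h3.symm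
    exact_mod_cast Int.one_le_abs this
  rw [h2, abs_mul] at h1
  have h5 := mul_le_mul_of_nonneg_right h1 (abs_nonneg (d3 1 μ (μ * μ)))
  have h6 := mul_le_mul_of_nonneg_left h4 (abs_nonneg (n : ℝ))
  have h7 : |(n : ℝ)| < C := by linarith
  exact_mod_cast h7

end Pool.Agent.H.MP_024ca5_nt
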