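import Pool.Agent.H.MP_024ca5_nt.D

set_option autoImplicit false

namespace Pool.Agent.H.MP_024ca5_nt
open Finset

variable {Λ : AddSubgroup V3} {δ : ℝ} {μ : V3}

def St (Λ : AddSubgroup V3) (δ : ℝ) : Set (V3 × V3) := {s | ∃ U ∈ Λ, U * s.1 ∈ Λ ∧ U * s.2 ∈ Λ ∧
  d3 U (U * s.1) (U * s.2) = δ ∧ Good0 U (U * s.1) (U * s.2)}

noncomputable def rho (s : V3 × V3) : V3 × V3 := (s.2 / s.1, 1 / s.1)

lemma St.pos {s : V3 × V3} (h : s ∈ St Λ δ) : pos s.1 ∧ pos s.2 := by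
  obtain ⟨U, -, -, -, -, h⟩ := h
  exact ⟨fun i => (mul_pos_iff_of_pos_left (h.1 i)).mp (h.2.1 i),
    fun i => (mul_pos_iff_of_pos_left (h.1 i)).mp (h.2.2.1 i)⟩

lemma St.rho {s : V3 × V3} (h : s ∈ St Λ δ) : rho s ∈ St Λ δ := by
  have h0 := (St.pos h).1
  obtain ⟨U, h1, h2, h3, h4, h5⟩ := h
  have e1 : U * s.1 * (s.2 / s.1) = U * s.2 := by
    funext i; have := (h0 i).ne'; simp only [Pi.mul_apply, Pi.div_apply]; field_simp
  have e2 : U * s.1 * (1 / s.1) = U := by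
    funext i; have := (h0 i).ne'; simp only [Pi.mul_apply, Pi.div_apply, Pi.one_apply]; field_simp
  refine ⟨U * s.1, h2, ?_⟩
  simp only [MP_024ca5_nt.rho, e1, e2]
  exact ⟨h3, h1, by rw [d3_rot, h4], h5.rot⟩

lemma mul_vec (U x y z : V3) (a b c : ℤ) : U * vec x y z a b c = vec (U * x) (U * y) (U * z) a b c := by
  funext i; simp only [vec, Pi.mul_apply]; ring

lemma Lat.step (L : Lat Λ δ μ) {s : V3 × V3} (h : s ∈ St Λ δ) :
    ∃ p : ℤ × ℤ, (s.2, vec s.2 1 s.1 p.1 p.2 (-1)) ∈ St Λ δ := by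
  obtain ⟨U, h1, h2, h3, h4, h5⟩ := h
  obtain ⟨a, b, h6⟩ := L.flip h3 h1 h2 (by rw [← d3_rot, h4]) h5.rot.rot
  refine ⟨(a, b), U, h1, h3, ?_⟩
  simp only [mul_vec, mul_one]
  refine ⟨vec_mem h3 h1 h2 _ _ _, ?_, h6.swap⟩
  rw [d3_swap, d3_vec, ← d3_rot, h4]; simp

lemma Lat.uq (L : Lat Λ δ μ) {z w : V3} {m n : ℤ} (h : (z, w) ∈ St Λ δ)
    (h' : (z, vec 1 z w m n 1) ∈ St Λ δ) : m = 0 ∧ n = 0 := by
  obtain ⟨U, h1, h2, h3, h4, h5⟩ := h
  obtain ⟨U', -, -, -, -, h6⟩ := h'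
  have h7 := good_scale (U / U') (fun i => div_pos (h5.1 i) (h6.1 i)) h6
  have e : U / U' * U' = U := by
    funext i; have := (h6.1 i).ne'; simp only [Pi.mul_apply, Pi.div_apply]; field_simp
  simp only [← mul_assoc, e, mul_vec, mul_one] at h7
  exact L.uniq h1 h2 h3 h4 h5 h7

lemma d3_mul (U x y z : V3) : d3 (U * x) (U * y) (U * z) = U 0 * U 1 * U 2 * d3 x y z := by
  simp only [d3, Pi.mul_apply]; ring

lemma Lat.data (L : Lat Λ δ μ) : ∃ C : ℕ, ∀ s ∈ St Λ δ, d3 1 s.1 s.2 ≠ 0 ∧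
    (th s.1 1 ≠ 0 ∧ th s.2 1 ≠ 0 ∧ th s.1 s.2 ≠ 0) ∧
    ∀ x ∈ [1, μ, μ * μ, s.1, s.2], ∀ y ∈ [1, μ, μ * μ, s.1, s.2], ∀ z ∈ [1, μ, μ * μ, s.1, s.2],
      ∃ n : ℤ, d3 x y z = n * d3 1 s.1 s.2 ∧ |n| < C := by
  obtain ⟨C, hC⟩ := L.bnd
  refine ⟨C, fun s ⟨U, h1, h2, h3, h4, h5⟩ => ?_⟩
  have hδ := L.hδ
  have h6 : U 0 * U 1 * U 2 * d3 1 s.1 s.2 = δ := by rw [← d3_mul, mul_one, h4]
  have h7 := (mul_pos (mul_pos (h5.1 0) (h5.1 1)) (h5.1 2)).ne'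
  have h8 : ∀ x y, th (U * x) (U * y) ≠ 0 → th x y ≠ 0 := fun x y h e => h (by
    simp only [th, Pi.mul_apply] at e ⊢
    linear_combination U 0 * U 1 * e)
  refine ⟨fun e => hδ (by rw [← h6, e, mul_zero]), ⟨h8 _ _ ?_, h8 _ _ ?_, h8 _ _ ?_⟩,
    fun x hx y hy z hz => ?_⟩
  · rw [mul_one]
    exact L.th_ne (z := U * s.2) h2 h1 (by rwa [← d3_rot, d3_swap, neg_ne_zero, h4])
  · rw [mul_one]
    exact L.th_ne (z := U * s.1) h3 h1 (by rwa [d3_rot, h4])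
  · exact L.th_ne (z := U) h2 h3 (by rwa [h4])
  have k : ∀ x ∈ [1, μ, μ * μ, s.1, s.2], U * x ∈ [U, μ * U, μ * (μ * U), U * s.1, U * s.2] := by
    simp [mul_comm, mul_left_comm]
  obtain ⟨n, h9, h10⟩ := hC U h1 _ h2 _ h3 h4 h5 _ (k x hx) _ (k y hy) _ (k z hz)
  refine ⟨n, mul_left_cancel₀ h7 ?_, h10⟩
  rw [← d3_mul, h9, ← h6]; ring

lemma Lat.finSt (L : Lat Λ δ μ) : (St Λ δ).Finite := by
  obtain ⟨C, hC⟩ := L.data
  set I := Set.Icc (-(C : ℤ)) C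
  have hI : I.Finite := Set.finite_Icc _ _
  set Y := (fun t : ℤ × ℤ × ℤ × ℤ => (t.1 : ℝ)⁻¹ • vec 1 μ (μ * μ) t.2.1 t.2.2.1 t.2.2.2) ''
    (I ×ˢ I ×ˢ I ×ˢ I)
  have hY : Y.Finite := (hI.prod (hI.prod (hI.prod hI))).image _
  refine (hY.prod hY).subset fun s hs => ?_
  obtain ⟨h1, -, h2⟩ := hC s hs
  have k : ∀ x ∈ [1, μ, μ * μ, s.1, s.2], x ∈ Y := fun x hx => by
    obtain ⟨n, n1, n2⟩ := h2 1 (by simp) μ (by simp) (μ * μ) (by simp)
    obtain ⟨a, a1, a2⟩ := h2 x hx μ (by simp) (μ * μ) (by simp)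
    obtain ⟨b, b1, b2⟩ := h2 1 (by simp) x hx (μ * μ) (by simp)
    obtain ⟨c, c1, c2⟩ := h2 1 (by simp) μ (by simp) x hx
    refine ⟨(n, a, b, c), ⟨abs_le.mp n2.le, abs_le.mp a2.le, abs_le.mp b2.le, abs_le.mp c2.le⟩, ?_⟩
    have h3 : (n : ℝ) ≠ 0 := fun e => L.vd (by rw [n1, e, zero_mul])
    funext i
    have h4 := cramer 1 μ (μ * μ) x i
    rw [n1, a1, b1, c1] at h4
    simp only [Pi.smul_apply, smul_eq_mul, vec]
    rw [inv_mul_eq_div, div_eq_iff h3]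
    apply mul_left_cancel₀ h1
    linarith
  exact ⟨k _ (by simp), k _ (by simp)⟩

lemma sgn_eq {x y : ℝ} (k : ℝ) (hk : 0 < k) (h : x = k * y) : sgn x = sgn y := by
  simp only [sgn, h, mul_pos_iff_of_pos_left hk]

theorem Lat.elim (L : Lat Λ δ μ) : False := by
  classical
  obtain ⟨C, hC⟩ := L.data
  choose! ab hab using fun s (h : s ∈ St Λ δ) => L.step h
  set σ : V3 × V3 → V3 × V3 := fun s => (s.2, vec s.2 1 s.1 (ab s).1 (ab s).2 (-1)) with hσ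
  set X := L.finSt.toFinset
  have hX : ∀ s, s ∈ X ↔ s ∈ St Λ δ := fun s => Set.Finite.mem_toFinset _
  have r1 : ∀ s ∈ X, rho s ∈ X := fun s h => (hX _).mpr (St.rho ((hX _).mp h))
  have s1 : ∀ s ∈ X, σ s ∈ X := fun s h => (hX _).mpr (hab s ((hX _).mp h))
  have r2 : Set.InjOn rho X := fun s hs t ht e => by
    have h1 : s.1 = t.1 := by simpa [rho] using congrArg Prod.snd e
    have h2 : s.2 / t.1 = t.2 / t.1 := by simpa [rho, h1] using congrArg Prod.fst e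
    refine Prod.ext h1 (funext fun i => ?_)
    exact (div_left_inj' ((St.pos ((hX _).mp ht)).1 i).ne').mp (congrFun h2 i)
  have key : ∀ s ∈ X, (ab (rho (σ s))).1 = (ab s).2 ∧ σ (rho (σ s)) = rho (rho s) := fun s h => by
    obtain ⟨p1, p2⟩ := St.pos ((hX _).mp h)
    have e1 : rho (rho s) = (1 / s.2, s.1 / s.2) := by
      refine Prod.ext (funext fun i => ?_) (funext fun i => ?_) <;>
        simp only [rho, Pi.div_apply, Pi.one_apply] <;> have := (p1 i).ne' <;> field_simp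
    have e2 : σ (rho (σ s)) = (1 / s.2, vec 1 (1 / s.2) (s.1 / s.2)
        ((ab (rho (σ s))).2 - (ab s).1) ((ab (rho (σ s))).1 - (ab s).2) 1) := by
      refine Prod.ext rfl (funext fun i => ?_)
      have := (p2 i).ne'
      change vec (rho (σ s)).2 1 (rho (σ s)).1 (ab (rho (σ s))).1 (ab (rho (σ s))).2 (-1) i = _
      generalize ab (rho (σ s)) = q
      simp only [rho, hσ, vec, Pi.div_apply, Pi.one_apply]
      push_cast; field_simp; ring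
    obtain ⟨h1, h2⟩ := L.uq (e1 ▸ (hX _).mp (r1 _ (r1 _ h))) (e2 ▸ (hX _).mp (s1 _ (r1 _ (s1 _ h))))
    refine ⟨by omega, ?_⟩
    rw [e2, h1, h2, e1]
    refine Prod.ext rfl (funext fun i => ?_)
    simp [vec]
  have s2 : Set.InjOn σ X := fun s hs t ht e => by
    apply r2 hs ht
    apply r2 (r1 _ hs) (r1 _ ht)
    rw [← (key s hs).2, ← (key t ht).2, e]
  set ξ : V3 := μ + (C : ℝ) • (μ * μ) with hξ
  set Ψ : V3 × V3 → ℝ := fun s => pot (d3 1 μ (μ * μ) / d3 1 s.1 s.2)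
    ⌊d3 1 ξ s.1 / d3 1 s.1 s.2⌋ ⌊d3 1 ξ s.2 / d3 1 s.1 s.2⌋ (d3 1 (μ * μ) s.1 / d3 1 s.1 s.2)
    (th s.1 1) (th s.2 1) with hΨ
  set sg : V3 × V3 → ℝ := fun s => sgn (th s.1 1 * th s.2 1) with hsg
  have h1 : ∀ s ∈ X, Ψ (σ s) - Ψ s = (ab s).1 - 3 * sg s := fun s h => by
    obtain ⟨d, ⟨t1, t2, -⟩, h2⟩ := hC s ((hX _).mp h)
    have k : ∀ x ∈ [1, μ, μ * μ, s.1, s.2], ∀ w, d3 1 x w ≠ 0 →
        ∃ p : ℤ, p ≠ 0 ∧ d3 1 ξ x / d3 1 s.1 s.2 = p := fun x hx w hw => by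
      obtain ⟨a, a1, a2⟩ := h2 1 (by simp) μ (by simp) x hx
      obtain ⟨b, b1, -⟩ := h2 1 (by simp) (μ * μ) (by simp) x hx
      refine ⟨a + C * b, fun e => ?_, ?_⟩
      · have h3 : b = 0 := by
          by_contra h3
          have h4 : |a| = C * |b| := by
            rw [show a = -(C * b) by omega, abs_neg, abs_mul, Nat.abs_cast]
          nlinarith [Int.one_le_abs h3]
        have h4 : a = 0 := by simpa [h3] using e
        have h5 : d3 1 μ (μ * μ) * d3 1 x w =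
            d3 1 μ x * d3 1 (μ * μ) w - d3 1 (μ * μ) x * d3 1 μ w := by
          unfold d3; ring
        rw [a1, b1, h3, h4] at h5
        exact mul_ne_zero L.vd hw (by simpa using h5)
      · rw [div_eq_iff d]
        simp only [hξ, d3, Pi.add_apply, Pi.smul_apply, smul_eq_mul] at a1 b1 ⊢
        push_cast
        linear_combination a1 + C * b1
    obtain ⟨p, p1, p2⟩ := k s.1 (by simp) s.2 d
    obtain ⟨q, q1, q2⟩ := k s.2 (by simp) s.1 (by rwa [← d3_rot, d3_swap, d3_rot, neg_ne_zero])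
    have e1 : d3 1 s.2 (vec s.2 1 s.1 (ab s).1 (ab s).2 (-1)) = d3 1 s.1 s.2 := by
      simp only [d3, vec]; push_cast; ring
    have e2 : d3 1 ξ (vec s.2 1 s.1 (ab s).1 (ab s).2 (-1)) / d3 1 s.1 s.2 =
        ((ab s).1 * q - p : ℤ) := by
      push_cast
      rw [← p2, ← q2, ← mul_div_assoc, ← sub_div]
      congr 1
      simp only [d3, vec]; push_cast; ring
    have e3 : th (vec s.2 1 s.1 (ab s).1 (ab s).2 (-1)) 1 = (ab s).1 * th s.2 1 - th s.1 1 := by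
      simp only [th, vec]; push_cast; ring
    simp only [hΨ, hσ, e1, e2, e3, p2, q2, Int.floor_intCast]
    refine pot_step _ p q _ _ _ _ _ p1 q1 t1 t2 (div_ne_zero L.vd d) ?_
    rw [← p2, ← q2]
    field_simp
    simp only [hξ, d3, Pi.add_apply, Pi.smul_apply, smul_eq_mul]
    ring
  have h2 : ∀ s ∈ X, sg s + sg (rho s) + sg (rho (rho s)) = 1 := fun s h => by
    obtain ⟨-, ⟨t1, t2, t3⟩, -⟩ := hC s ((hX _).mp h)
    obtain ⟨p1, p2⟩ := St.pos ((hX _).mp h)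
    have y0 := p1 0
    have y1 := p1 1
    have z0 := p2 0
    have z1 := p2 1
    simp only [th, Pi.one_apply, mul_one, one_mul] at t1 t2 t3
    rw [← sgn_tri (a := 1) (b := s.1 0 / s.1 1) (c := s.2 0 / s.2 1)
      (fun e => t1 (by field_simp at e; linarith)) (fun e => t2 (by field_simp at e; linarith))
      (fun e => t3 (by field_simp at e; linarith))]
    simp only [hsg, th, rho, Pi.div_apply, Pi.one_apply]
    congr 1
    · congr 1
      · exact sgn_eq (s.1 1 * s.2 1) (by positivity) (by field_simp)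
      · exact sgn_eq (s.2 1 / s.1 0 ^ 2) (by positivity) (by field_simp)
    · exact sgn_eq (s.1 1 / s.2 0 ^ 2) (by positivity) (by field_simp)
  have h3 := sum_congr rfl h1
  have h4 := sum_congr rfl h2
  rw [sum_sub_distrib, sum_inj X σ s1 s2, sum_sub_distrib, ← mul_sum] at h3
  rw [sum_add_distrib, sum_add_distrib, sum_inj X rho r1 r2 (fun s => sg (rho s)),
    sum_inj X rho r1 r2] at h4
  have h5 : ∑ s ∈ X, ((ab s).2 : ℝ) = ∑ s ∈ X, ((ab s).1 : ℝ) := by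
    rw [← sum_inj X rho r1 r2 (fun s => ((ab s).1 : ℝ)),
      ← sum_inj X σ s1 s2 (fun s => ((ab (rho s)).1 : ℝ))]
    exact sum_congr rfl fun s h => by rw [(key s h).1]
  have h6 : ∀ s ∈ X, (1 : ℝ) + 1 ≤ (ab s).1 + (ab s).2 := fun s h => by
    obtain ⟨U, -, -, -, -, h7⟩ := (hX _).mp h
    have h8 := (h7.rot.rot.2.2.2 (ab s).1 (ab s).2 (-1) (fun i => by
      have := mul_pos (h7.1 i) ((St.pos ((hX _).mp (s1 s h))).2 i)
      rwa [← Pi.mul_apply, mul_vec, mul_one] at this)).1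
    exact_mod_cast (by omega : 1 + 1 ≤ (ab s).1 + (ab s).2)
  obtain ⟨U, u1, V, v1, W, w1, d, g, hg⟩ := L.start
  have e : ∀ x, U * (x / U) = x := fun x => by
    funext i; have := (g.1 i).ne'; simp only [Pi.mul_apply, Pi.div_apply]; field_simp
  have h7 : (V / U, W / U) ∈ X := (hX _).mpr ⟨U, u1, by simp only [e]; exact ⟨v1, w1, d, g⟩⟩
  have h8 := sum_lt_sum h6 ⟨_, h7, lt_of_le_of_ne (h6 _ h7) fun h => hg (ab (V / U, W / U)).1
    (ab (V / U, W / U)).2 (by exact_mod_cast h.symm) (fun i => by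
      have := mul_pos (g.1 i) ((St.pos ((hX _).mp (s1 _ h7))).2 i)
      rwa [← Pi.mul_apply, mul_vec, mul_one, e, e] at this)⟩
  rw [sum_add_distrib, sum_add_distrib] at h8
  linarith

end Pool.Agent.H.MP_024ca5_nt
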