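import Pool.Agent.H.MP_024ca5_nt.E

set_option autoImplicit false

namespace Pool.Agent.H.MP_024ca5_nt
open Finset Matrix Polynomial

lemma cubic (A : Matrix (Fin 3) (Fin 3) ℤ) (hA : Irreducible (A.charpoly.map (Int.castRingHom ℚ)))
    (m : ℝ) (v : V3) (hv : v ≠ 0) (h : (A.map (Int.cast : ℤ → ℝ)) *ᵥ v = m • v) (c : Fin 3 → ℤ)
    (hc : c 0 + c 1 * m + c 2 * (m * m) = 0) : c = 0 := by
  have h1 : aeval m (A.charpoly.map (Int.castRingHom ℚ)) = 0 := by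
    have h2 : ((scalar (Fin 3)) m - A.map (Int.castRingHom ℝ)).det = 0 := by
      rw [← Matrix.exists_mulVec_eq_zero_iff]
      refine ⟨v, hv, ?_⟩
      rw [sub_mulVec, Int.coe_castRingHom, h]
      funext i
      simp [mulVec_diagonal]
    rw [← eval_charpoly, charpoly_map, eval_map] at h2
    rw [aeval_def, eval₂_map, ← h2]
    congr 1
  have h2 := minpoly.eq_of_irreducible_of_monic hA h1 (A.charpoly_monic.map _)
  by_contra h3
  have h4 : (C (c 2 : ℚ) * X ^ 2 + C (c 1 : ℚ) * X + C (c 0 : ℚ)) ≠ 0 := fun e => h3 (by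
    have e0 := congrArg (coeff · 0) e
    have e1 := congrArg (coeff · 1) e
    have e2 := congrArg (coeff · 2) e
    simp only [coeff_add, coeff_C_mul, coeff_X_pow, coeff_X, coeff_C, coeff_zero] at e0 e1 e2
    funext i
    fin_cases i
    · simpa using e0
    · simpa using e1
    · simpa using e2)
  have h5 := (minpoly.degree_le_of_ne_zero ℚ m h4 (by
    simp only [map_add, map_mul, aeval_C, aeval_X, map_pow, eq_ratCast, Rat.cast_intCast]
    linarith)).trans degree_quadratic_le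
  rw [← h2, A.charpoly_monic.degree_map, charpoly_degree_eq_dim] at h5
  exact absurd h5 (by decide)

def cs (z : Fin 3 → ℤ) : V3 := fun j => (z j : ℝ)

lemma prim (n : Fin 3 → ℤ) : ∃ g : ℤ, 0 ≤ g ∧ ∃ f k : Fin 3 → ℤ, (∀ i, n i = g * f i) ∧
    f 0 * k 0 + f 1 * k 1 + f 2 * k 2 = 1 := by
  obtain ⟨f, h1, h2⟩ := extract_gcd (s := univ) n univ_nonempty
  obtain ⟨k, hk⟩ := gcd_eq_sum_mul univ f
  rw [h2, Fin.sum_univ_three] at hk
  exact ⟨_, Int.nonneg_of_normalize_eq_self normalize_gcd, f, k, fun i => h1 i (mem_univ i), hk.symm⟩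

theorem main : ∀ A : Matrix (Fin 3) (Fin 3) ℤ,
    Irreducible (A.charpoly.map (Int.castRingHom ℚ)) →
    ∀ (μ : Fin 3 → ℝ) (v : Fin 3 → (Fin 3 → ℝ)), Function.Injective μ → (∀ i, v i ≠ 0) →
      (∀ i, (A.map (Int.cast : ℤ → ℝ)) *ᵥ v i = μ i • v i) →
      ∀ K : Set (Fin 3 → ℤ), K = {x : Fin 3 → ℤ | x ≠ 0 ∧ ∃ t : Fin 3 → ℝ, (∀ i, 0 ≤ t i) ∧
          (fun j => (x j : ℝ)) = ∑ i, t i • v i} →
        ∃ f : Fin 3 → ℤ, (∀ d : ℤ, (∀ i, d ∣ f i) → IsUnit d) ∧ ∃ c : ℤ, 2 ≤ c ∧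
          (∀ x ∈ K, c ≤ f ⬝ᵥ x) ∧ ∃ p ∈ K, ∃ q ∈ K, ∃ r ∈ K,
            f ⬝ᵥ p = c ∧ f ⬝ᵥ q = c ∧ f ⬝ᵥ r = c ∧ LinearIndependent ℤ ![q - p, r - p] := by
  intro A hA μ v hμ hv hev K hK
  by_contra hneg
  set Vm : Matrix (Fin 3) (Fin 3) ℝ := Matrix.of fun j i => v i j with hVm
  have hV : ∀ x : V3, Vm *ᵥ x = ∑ i, x i • v i := fun x => by
    funext j; simp [hVm, mulVec, dotProduct, mul_comm]
  have hli := Module.End.eigenvectors_linearIndependent' (toLin' (A.map (Int.cast : ℤ → ℝ))) μ hμ v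
    (fun i => ⟨Module.End.mem_eigenspace_iff.mpr (by rw [toLin'_apply, hev]), hv i⟩)
  have hu : IsUnit Vm.det := (isUnit_iff_isUnit_det _).mp (linearIndependent_cols_iff_isUnit.mp hli)
  set T := Vm⁻¹ with hT
  have h1 : ∀ x, T *ᵥ (Vm *ᵥ x) = x := fun x => by
    rw [mulVec_mulVec, nonsing_inv_mul _ hu, one_mulVec]
  have h2 : ∀ x, Vm *ᵥ (T *ᵥ x) = x := fun x => by
    rw [mulVec_mulVec, mul_nonsing_inv _ hu, one_mulVec]
  have hδ : T.det ≠ 0 := (isUnit_nonsing_inv_det _ hu).ne_zero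
  set t : (Fin 3 → ℤ) →+ V3 := AddMonoidHom.mk' (fun z => T *ᵥ cs z) (fun a b => by
    rw [← mulVec_add]; congr 1; funext j; simp [cs]) with ht
  have t1 : ∀ z, t z = T *ᵥ cs z := fun _ => rfl
  have t2 : ∀ z i, t z i = T i 0 * z 0 + T i 1 * z 1 + T i 2 * z 2 := fun z i => by
    simp [t1, mulVec, dotProduct, Fin.sum_univ_three, cs]
  have t3 : ∀ a b c, d3 (t a) (t b) (t c) = d3 (cs a) (cs b) (cs c) * T.det := fun a b c => by
    simp only [d3, t2, cs, det_fin_three]; ring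
  have t4 : ∀ z, μ * t z = t (A *ᵥ z) := fun z => by
    have e : cs (A *ᵥ z) = (A.map (Int.cast : ℤ → ℝ)) *ᵥ cs z := by
      funext j; simp [cs, mulVec, dotProduct]
    rw [t1 (A *ᵥ z), e, ← h2 (cs z), ← t1, hV, mulVec_sum, ← h1 (μ * t z), hV]
    simp only [mulVec_smul, hev, smul_smul, Pi.mul_apply, mul_comm]
  have t5 : ∀ z i, t z i = 0 → t z = 0 := fun z i e => by
    have h3 : d3 (cs z) (cs (A *ᵥ z)) (cs (A *ᵥ (A *ᵥ z))) * T.det = 0 := by
      rw [← t3, ← t4 (A *ᵥ z), ← t4 z]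
      fin_cases i <;> simp only [Fin.zero_eta, Fin.mk_one, Fin.reduceFinMk] at e <;>
        simp [d3, e]
    have h4 : (Matrix.of ![z, A *ᵥ z, A *ᵥ (A *ᵥ z)]).det = 0 := by
      have h5 := (mul_eq_zero.mp h3).resolve_right hδ
      generalize A *ᵥ (A *ᵥ z) = b at h5 ⊢
      generalize A *ᵥ z = a at h5 ⊢
      simp only [d3, cs] at h5
      rw [det_fin_three]
      simp only [of_apply, cons_val_zero, cons_val_one, Matrix.cons_val]
      have h6 : z 0 * (a 1 * b 2 - a 2 * b 1) - z 1 * (a 0 * b 2 - a 2 * b 0) +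
        z 2 * (a 0 * b 1 - a 1 * b 0) = 0 := by exact_mod_cast h5
      linarith
    obtain ⟨c, c1, c2⟩ := exists_vecMul_eq_zero_iff.mpr h4
    have h5 : c 0 • z + c 1 • (A *ᵥ z) + c 2 • (A *ᵥ (A *ᵥ z)) = 0 := by
      rw [← c2]; funext j; simp [vecMul, dotProduct, Fin.sum_univ_three]
    have h6 := congrArg t h5
    rw [map_add, map_add, map_zsmul, map_zsmul, map_zsmul, map_zero, ← t4 (A *ᵥ z), ← t4 z] at h6
    funext j
    by_contra h7
    refine c1 (cubic A hA (μ j) (v j) (hv j) (hev j) c (mul_right_cancel₀ h7 ?_))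
    have h8 := congrFun h6 j
    simp only [Pi.add_apply, Pi.mul_apply, zsmul_eq_mul, Pi.zero_apply, Pi.intCast_apply] at h8
    linarith
  have hKp : ∀ z, z ∈ K ↔ pos (t z) := fun z => by
    rw [hK]
    constructor
    · rintro ⟨z1, s, s1, s2⟩ i
      have e : t z = s := by rw [t1, ← h1 s, hV, ← s2]; rfl
      refine lt_of_le_of_ne (e ▸ s1 i) fun h => z1 ?_
      have h3 := h2 (cs z)
      rw [← t1, t5 z i h.symm, mulVec_zero] at h3
      funext j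
      simpa [cs] using (congrFun h3 j).symm
    · intro h
      refine ⟨fun e => by simpa [e] using h 0, t z, fun i => (h i).le, ?_⟩
      rw [← hV, t1, h2]; rfl
  have hd : ∀ (φ : V3) z, dot φ (t z) = dot (φ ᵥ* T) (cs z) := fun φ z => by
    simp [dot, t2, cs, vecMul, dotProduct, Fin.sum_univ_three]; ring
  refine Lat.elim (Λ := t.range) (δ := T.det) (μ := μ) ⟨hδ, hμ, ?_, ?_, ?_, fun R => ?_, ?_, ?_, ?_⟩
  · rintro _ ⟨a, rfl⟩ _ ⟨b, rfl⟩ _ ⟨c, rfl⟩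
    refine ⟨a 0 * (b 1 * c 2 - b 2 * c 1) - a 1 * (b 0 * c 2 - b 2 * c 0) +
      a 2 * (b 0 * c 1 - b 1 * c 0), ?_⟩
    rw [t3]; simp [d3, cs]
  · rintro _ ⟨a, rfl⟩
    exact ⟨_, (t4 a).symm⟩
  · rintro _ ⟨a, rfl⟩
    exact t5 a
  · obtain ⟨N, hN⟩ := exists_nat_ge (∑ j, ∑ i, |Vm j i| * R)
    refine ((Set.Finite.pi' (fun _ : Fin 3 => Set.finite_Icc (-(N : ℤ)) N)).image t).subset ?_
    rintro _ ⟨⟨z, rfl⟩, hz⟩
    refine ⟨z, fun j => abs_le.mp ?_, rfl⟩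
    have hR := (abs_nonneg _).trans (hz 0)
    have h3 : |(z j : ℝ)| ≤ ∑ i, |Vm j i| * R := by
      have h4 := congrFun (h2 (cs z)) j
      rw [← t1, mulVec, dotProduct] at h4
      refine le_trans (le_of_eq (congrArg abs h4.symm)) ((abs_sum_le_sum_abs _ _).trans
        (sum_le_sum fun i _ => ?_))
      rw [abs_mul]
      exact mul_le_mul_of_nonneg_left (hz i) (abs_nonneg _)
    have h4 := h3.trans ((single_le_sum (f := fun j => ∑ i, |Vm j i| * R)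
      (fun _ _ => sum_nonneg fun _ _ => by positivity) (mem_univ j)).trans hN)
    exact_mod_cast h4
  · refine ⟨∑ i, ∑ j, |T i j|, fun p => ⟨t fun j => ⌊(Vm *ᵥ p) j⌋, ⟨_, rfl⟩, fun i => ?_⟩⟩
    refine le_trans ?_ (single_le_sum (f := fun i => ∑ j, |T i j|)
      (fun _ _ => sum_nonneg fun _ _ => abs_nonneg _) (mem_univ i))
    have e : t (fun j => ⌊(Vm *ᵥ p) j⌋) i - p i = ∑ j, T i j * (⌊(Vm *ᵥ p) j⌋ - (Vm *ᵥ p) j) := by
      conv_lhs => rw [t1, ← congrFun (h1 p) i, ← Pi.sub_apply, ← mulVec_sub]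
      rfl
    rw [e]
    refine (abs_sum_le_sum_abs _ _).trans (sum_le_sum fun j _ => ?_)
    rw [abs_mul]
    refine mul_le_of_le_one_right (abs_nonneg _) (abs_le.mpr ⟨?_, ?_⟩)
    · linarith [Int.lt_floor_add_one ((Vm *ᵥ p) j)]
    · linarith [Int.floor_le ((Vm *ᵥ p) j)]
  · rintro φ hφ _ ⟨p, rfl⟩ _ ⟨q, rfl⟩ _ ⟨r, rfl⟩ p1 q1 r1 p2 q2 r2 hpqr _ ⟨x, rfl⟩
    rw [t3] at hpqr
    have hD := left_ne_zero_of_mul hpqr
    obtain ⟨g, -, f, k, f1, f2⟩ := prim (crossProduct q r + crossProduct r p + crossProduct p q)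
    have e1 : ∀ z, d3 (cs p) (cs q) (cs r) * dot φ (t z) = g * (f ⬝ᵥ z : ℤ) := fun z => by
      have a0 := f1 0
      have a1 := f1 1
      have a2 := f1 2
      simp only [Pi.add_apply, cross_apply, cons_val_zero, cons_val_one, Matrix.cons_val] at a0 a1 a2
      have b0 := congrArg (Int.cast : ℤ → ℝ) a0
      have b1 := congrArg (Int.cast : ℤ → ℝ) a1
      have b2 := congrArg (Int.cast : ℤ → ℝ) a2
      rw [hd] at p2 q2 r2 ⊢
      have e : d3 (cs p) (cs q) (cs r) * dot (φ ᵥ* T) (cs z) =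
          d3 (cs z) (cs q) (cs r) * dot (φ ᵥ* T) (cs p) +
          d3 (cs p) (cs z) (cs r) * dot (φ ᵥ* T) (cs q) +
          d3 (cs p) (cs q) (cs z) * dot (φ ᵥ* T) (cs r) := by unfold d3 dot; ring
      rw [e, p2, q2, r2]
      simp only [d3, cs, dotProduct, Fin.sum_univ_three]
      push_cast at b0 b1 b2 ⊢
      linear_combination (z 0 : ℝ) * b0 + (z 1 : ℝ) * b1 + (z 2 : ℝ) * b2
    obtain ⟨f, c, f2, c1, e2⟩ : ∃ (f : Fin 3 → ℤ) (c : ℤ), (∀ d : ℤ, (∀ i, d ∣ f i) → IsUnit d) ∧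
        0 < c ∧ ∀ z, c * dot φ (t z) = (f ⬝ᵥ z : ℤ) := by
      have e2 := e1 p
      rw [p2, mul_one] at e2
      have g0 : (g : ℝ) ≠ 0 := left_ne_zero_of_mul (e2 ▸ hD)
      have c0 : f ⬝ᵥ p ≠ 0 := by exact_mod_cast right_ne_zero_of_mul (e2 ▸ hD)
      have e3 : ∀ z, (f ⬝ᵥ p : ℤ) * dot φ (t z) = (f ⬝ᵥ z : ℤ) := fun z =>
        mul_left_cancel₀ g0 (by rw [← e1, e2, mul_assoc])
      have f3 : ∀ d : ℤ, (∀ i, d ∣ f i) → IsUnit d := fun d h => isUnit_of_dvd_one (f2 ▸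
        dvd_add (dvd_add ((h 0).mul_right _) ((h 1).mul_right _)) ((h 2).mul_right _))
      rcases c0.lt_or_gt with h | h
      · refine ⟨-f, -(f ⬝ᵥ p), fun d h => f3 d fun i => dvd_neg.mp (h i), by omega, fun z => ?_⟩
        rw [neg_dotProduct, Int.cast_neg, Int.cast_neg, neg_mul, e3]
      · exact ⟨f, _, f3, h, e3⟩
    have c2 : (0 : ℝ) < c := by exact_mod_cast c1
    have e3 : ∀ z, dot φ (t z) = 1 → f ⬝ᵥ z = c := fun z h => by
      have := e2 z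
      rw [h, mul_one] at this
      exact_mod_cast this.symm
    by_cases c3 : c = 1
    · exact ⟨f ⬝ᵥ x, by rw [← e2, c3]; simp⟩
    refine absurd ⟨f, f2, c, by omega, fun z hz => ?_, p, (hKp p).mpr p1, q, (hKp q).mpr q1, r,
      (hKp r).mpr r1, e3 p p2, e3 q q2, e3 r r2, ?_⟩ hneg
    · have h3 := hφ _ ⟨z, rfl⟩ ((hKp z).mp hz)
      have h4 : (c : ℝ) ≤ (f ⬝ᵥ z : ℤ) := by rw [← e2]; nlinarith
      exact_mod_cast h4
    · rw [LinearIndependent.pair_iff]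
      intro a b h
      have a0 := congrArg (Int.cast : ℤ → ℝ) (congrFun h 0)
      have a1 := congrArg (Int.cast : ℤ → ℝ) (congrFun h 1)
      have a2 := congrArg (Int.cast : ℤ → ℝ) (congrFun h 2)
      simp only [Pi.add_apply, Pi.smul_apply, Pi.sub_apply, smul_eq_mul, Pi.zero_apply] at a0 a1 a2
      push_cast at a0 a1 a2
      have h3 : (a : ℝ) * d3 (cs p) (cs q) (cs r) = 0 := by
        simp only [d3, cs]
        linear_combination ((r 1 : ℝ) * p 2 - r 2 * p 1) * a0 + ((r 2 : ℝ) * p 0 - r 0 * p 2) * a1 +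
          ((r 0 : ℝ) * p 1 - r 1 * p 0) * a2
      have h4 : (b : ℝ) * d3 (cs p) (cs q) (cs r) = 0 := by
        simp only [d3, cs]
        linear_combination ((p 1 : ℝ) * q 2 - p 2 * q 1) * a0 + ((p 2 : ℝ) * q 0 - p 0 * q 2) * a1 +
          ((p 0 : ℝ) * q 1 - p 1 * q 0) * a2
      exact ⟨by simpa [hD] using h3, by simpa [hD] using h4⟩
  · rintro φ hφ _ ⟨u, rfl⟩ _ ⟨m, rfl⟩ m1 u1 m2
    choose f hf using fun j : Fin 3 => hφ _ ⟨Pi.single j 1, rfl⟩
    have e : ∀ z, dot φ (t z) = f 0 * z 0 + f 1 * z 1 + f 2 * z 2 := fun z => by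
      rw [← hf, ← hf, ← hf]
      simp only [hd]
      simp [dot, cs]
    obtain ⟨g, g1, n, k, n1, n2⟩ := prim m
    have g2 : g ≠ 0 := fun h => m1 (by
      rw [show m = 0 from funext fun i => by simp [n1, h], map_zero])
    have g3 : (g : ℝ) ≠ 0 := by exact_mod_cast g2
    have n3 := congrArg (Int.cast : ℤ → ℝ) n2
    rw [e] at u1 m2
    simp only [n1] at m2
    push_cast at m2 n3
    have n4 : (f 0 : ℝ) * n 0 + f 1 * n 1 + f 2 * n 2 = 0 :=
      mul_left_cancel₀ g3 (by linear_combination m2)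
    refine ⟨g, by exact_mod_cast (by omega : 1 ≤ g), _, ⟨n, rfl⟩, _, ⟨crossProduct f k, rfl⟩,
      ?_, ?_, ?_⟩
    · funext i
      simp only [t2, n1, Pi.smul_apply, smul_eq_mul]; push_cast; ring
    · rw [t3]
      refine (mul_eq_right₀ hδ).mpr ?_
      simp only [d3, cs, cross_apply, cons_val_zero, cons_val_one, Matrix.cons_val]
      push_cast
      linear_combination ((n 0 : ℝ) * k 0 + n 1 * k 1 + n 2 * k 2) * u1 + n3 -
        ((u 0 : ℝ) * k 0 + u 1 * k 1 + u 2 * k 2) * n4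
    · rw [e]
      simp only [cross_apply, cons_val_zero, cons_val_one, Matrix.cons_val]
      push_cast; ring

end Pool.Agent.H.MP_024ca5_nt
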